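import Pool.Agent.H856.WD.Pla

/-! # The arithmetic part: a place above `p` (proof) -/

set_option autoImplicit false

open Polynomial

namespace Pool.Agent.H856.WD

section conj

variable (p : ℕ) [hp : Fact p.Prime]

/-- The shifted cyclotomic polynomial over `ℤ_p`. -/
noncomputable def cy : ℤ_[p][X] := ((cyclotomic p ℤ).comp (X + 1)).map (Int.castRingHom ℤ_[p])

omit hp in
lemma cyZ_monic : ((cyclotomic p ℤ).comp (X + 1)).Monic := by
  rw [show (X + 1 : ℤ[X]) = X + C 1 by simp]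
  refine (cyclotomic.monic p ℤ).comp (monic_X_add_C 1) fun h => ?_
  rw [natDegree_X_add_C] at h
  exact zero_ne_one h.symm

lemma cy_monic : (cy p).Monic := (cyZ_monic p).map _

lemma cyZ_natDegree : ((cyclotomic p ℤ).comp (X + 1)).natDegree = p - 1 := by
  rw [show (X + 1 : ℤ[X]) = X + C 1 by simp, natDegree_comp, natDegree_X_add_C, mul_one,
    natDegree_cyclotomic, Nat.totient_prime hp.out]

lemma cy_eis : (cy p).IsEisensteinAt (Ideal.span {(p : ℤ_[p])}) := by
  have h0 := cyclotomic_comp_X_add_one_isEisensteinAt p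
  have hprime : (Ideal.span {(p : ℤ_[p])}).IsPrime :=
    (Ideal.span_singleton_prime PadicInt.prime_p.ne_zero).2 PadicInt.prime_p
  refine Monic.isEisensteinAt_of_mem_of_notMem (cy_monic p) hprime.ne_top (fun {n} hn => ?_) ?_
  · have h1 : n < ((cyclotomic p ℤ).comp (X + 1)).natDegree :=
      lt_of_lt_of_le hn natDegree_map_le
    have h2 := h0.mem h1
    rw [cy, coeff_map]
    change _ ∈ Ideal.span {(p : ℤ)} at h2
    rw [Ideal.mem_span_singleton] at h2 ⊢
    have h3 := map_dvd (Int.castRingHom ℤ_[p]) h2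
    simpa using h3
  · have h1 : (cy p).coeff 0 = (p : ℤ_[p]) := by
      rw [cy, coeff_map, coeff_zero_eq_eval_zero, eval_comp]
      simp
    rw [h1, Ideal.span_singleton_pow, Ideal.mem_span_singleton]
    intro h2
    have h3 : IsUnit (p : ℤ_[p]) := by
      obtain ⟨c, hc⟩ := h2
      have hp0 : (p : ℤ_[p]) ≠ 0 := PadicInt.prime_p.ne_zero
      have h4 : (p : ℤ_[p]) * c = 1 := by
        have : (p : ℤ_[p]) * ((p : ℤ_[p]) * c) = p * 1 := by
          rw [mul_one, ← mul_assoc, ← pow_two, ← hc]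
        exact mul_left_cancel₀ hp0 this
      exact IsUnit.of_mul_eq_one _ h4
    exact PadicInt.prime_p.not_isUnit h3

lemma cy_irr : Irreducible (cy p) := by
  have hprime : (Ideal.span {(p : ℤ_[p])}).IsPrime :=
    (Ideal.span_singleton_prime PadicInt.prime_p.ne_zero).2 PadicInt.prime_p
  refine (cy_eis p).irreducible hprime (cy_monic p).isPrimitive ?_
  rw [cy, (cyZ_monic p).natDegree_map, cyZ_natDegree]
  have := hp.out.two_le
  omega

lemma cy_irr' : Irreducible ((cy p).map (algebraMap ℤ_[p] ℚ_[p])) :=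
  ((cy_monic p).irreducible_iff_irreducible_map_fraction_map (K := ℚ_[p])).1 (cy_irr p)

lemma cy_minpoly (z : PadicAlgCl p) (hz : IsPrimitiveRoot z p) :
    minpoly ℚ_[p] (z - 1) = (cy p).map (algebraMap ℤ_[p] ℚ_[p]) := by
  symm
  refine minpoly.eq_of_irreducible_of_monic (cy_irr' p) ?_ ((cy_monic p).map _)
  have h1 : aeval (z - 1) ((cy p).map (algebraMap ℤ_[p] ℚ_[p])) =
      aeval (z - 1) ((cyclotomic p ℤ).comp (X + 1)) := by
    rw [cy, Polynomial.map_map, aeval_def, aeval_def, eval₂_map]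
    congr 1
  rw [h1, aeval_comp]
  have h2 : aeval (z - 1) (X + 1 : ℤ[X]) = z := by simp
  rw [h2, aeval_def, ← eval_map, map_cyclotomic]
  exact hz.isRoot_cyclotomic hp.out.pos

/-- Two primitive roots of unity are conjugate over `ℚ_p`. -/
lemma exists_delta (z w : PadicAlgCl p) (hz : IsPrimitiveRoot z p) (hw : IsPrimitiveRoot w p) :
    ∃ δ : PadicAlgCl p ≃ₐ[ℚ_[p]] PadicAlgCl p, δ z = w := by
  have h1 : IsConjRoot ℚ_[p] (w - 1) (z - 1) := by
    rw [isConjRoot_def, cy_minpoly p z hz, cy_minpoly p w hw]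
  obtain ⟨δ, hδ⟩ := isConjRoot_iff_exists_algEquiv.1 h1
  refine ⟨δ, ?_⟩
  rw [map_sub, map_one] at hδ
  exact sub_left_injective hδ

end conj

section iota

instance algQ : Algebra.IsAlgebraic ℚ (AlgebraicClosure ℚ) := AlgebraicClosure.isAlgebraic ℚ

instance normQ : Normal ℚ (AlgebraicClosure ℚ) :=
  haveI : IsAlgClosure ℚ (AlgebraicClosure ℚ) := ⟨inferInstance, inferInstance⟩
  IsAlgClosure.normal ℚ (AlgebraicClosure ℚ)

variable (p : ℕ) [hp : Fact p.Prime]

/-- The embedding of the algebraic numbers. -/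
noncomputable def iota : AlgebraicClosure ℚ →ₐ[ℚ] PadicAlgCl p := IsAlgClosed.lift

/-- Automorphisms over `ℚ_p` restrict to the algebraic numbers. -/
lemma exists_restr (δ : PadicAlgCl p ≃ₐ[ℚ_[p]] PadicAlgCl p) :
    ∃ d : AlgebraicClosure ℚ ≃+* AlgebraicClosure ℚ, ∀ x, iota p (d x) = δ (iota p x) := by
  let _ : Algebra (AlgebraicClosure ℚ) (PadicAlgCl p) := (iota p).toRingHom.toAlgebra
  have : IsScalarTower ℚ (AlgebraicClosure ℚ) (PadicAlgCl p) :=
    IsScalarTower.of_algebraMap_eq fun x => ((iota p).commutes x).symm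
  have : IsScalarTower ℚ ℚ_[p] (PadicAlgCl p) := inferInstance
  refine ⟨((δ.restrictScalars ℚ).restrictNormal (AlgebraicClosure ℚ)).toRingEquiv, fun x => ?_⟩
  exact AlgEquiv.restrictNormal_commutes (δ.restrictScalars ℚ) (AlgebraicClosure ℚ) x

/-- The valuation. -/
noncomputable def val (x : AlgebraicClosure ℚ) : ℝ := - Real.log ‖iota p x‖

lemma norm_ne {x : AlgebraicClosure ℚ} (hx : x ≠ 0) : ‖iota p x‖ ≠ 0 := by
  rw [norm_ne_zero_iff]
  exact (map_ne_zero (iota p)).2 hx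

lemma val_mul (x y : AlgebraicClosure ℚ) (hx : x ≠ 0) (hy : y ≠ 0) :
    val p (x * y) = val p x + val p y := by
  rw [val, val, val, map_mul, norm_mul, Real.log_mul (norm_ne p hx) (norm_ne p hy)]
  ring

lemma norm_eq_one {x : AlgebraicClosure ℚ} (hx : x ≠ 0) (h : val p x = 0) : ‖iota p x‖ = 1 := by
  have h1 : 0 < ‖iota p x‖ := lt_of_le_of_ne (norm_nonneg _) (norm_ne p hx).symm
  rw [val, neg_eq_zero] at h
  exact Real.eq_one_of_pos_of_log_eq_zero h1 h

lemma exists_d (ζ : AlgebraicClosure ℚ) (hζ : IsPrimitiveRoot ζ p) (t : (ZMod p)ˣ) :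
    ∃ d : AlgebraicClosure ℚ ≃+* AlgebraicClosure ℚ,
      d ζ = ζ ^ (t : ZMod p).val ∧ ∀ x, val p (d x) = val p x := by
  have hcop : ((t : ZMod p).val).Coprime p := ZMod.val_coe_unit_coprime t
  have h1 : IsPrimitiveRoot (iota p ζ) p := hζ.map_of_injective (iota p).injective
  obtain ⟨δ, hδ⟩ := exists_delta p _ _ h1 (h1.pow_of_coprime _ hcop)
  obtain ⟨d, hd⟩ := exists_restr p δ
  refine ⟨d, ?_, fun x => ?_⟩
  · have h2 : iota p (d ζ) = iota p (ζ ^ (t : ZMod p).val) := by rw [hd, hδ, map_pow]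
    exact (iota p).injective h2
  · rw [val, val, hd]
    congr 2
    exact (spectralNorm_eq_of_equiv δ (iota p x)).symm

/-- All conjugates are units at the place. -/
lemma conj_norm (ζ : AlgebraicClosure ℚ) (hζ : IsPrimitiveRoot ζ p) (x : AlgebraicClosure ℚ)
    (hx : x ≠ 0) (h : ∀ σ : AlgebraicClosure ℚ ≃+* AlgebraicClosure ℚ, σ ζ = ζ → val p (σ x) = 0)
    (g : AlgebraicClosure ℚ ≃+* AlgebraicClosure ℚ) : ‖iota p (g x)‖ = 1 := by
  have hgz : IsPrimitiveRoot (g ζ) p := hζ.map_of_injective g.injective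
  have : NeZero p := ⟨hp.out.ne_zero⟩
  obtain ⟨i, hi, hcop, hpow⟩ := (hζ.isPrimitiveRoot_iff).1 hgz
  obtain ⟨d, hd, hv⟩ := exists_d p ζ hζ (ZMod.unitOfCoprime i hcop)
  have h1 : ((ZMod.unitOfCoprime i hcop : (ZMod p)ˣ) : ZMod p).val = i := by
    rw [ZMod.coe_unitOfCoprime, ZMod.val_natCast, Nat.mod_eq_of_lt hi]
  rw [h1] at hd
  have h2 := h (g.trans d.symm) (by
    show d.symm (g ζ) = ζ
    rw [← hpow, ← hd, RingEquiv.symm_apply_apply])
  have h3 : val p (g x) = 0 := by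
    rw [← h2, ← hv ((g.trans d.symm) x)]
    congr 1
    show g x = d (d.symm (g x))
    rw [RingEquiv.apply_symm_apply]
  exact norm_eq_one p ((map_ne_zero g).2 hx) h3

/-- The coefficients of the minimal polynomial are `p`-adic integers. -/
lemma coeff_norm (x : AlgebraicClosure ℚ)
    (h : ∀ g : AlgebraicClosure ℚ ≃+* AlgebraicClosure ℚ, ‖iota p (g x)‖ = 1) (i : ℕ) :
    ‖(((minpoly ℚ x).coeff i : ℚ) : ℚ_[p])‖ ≤ 1 := by
  have hint : IsIntegral ℚ x := Algebra.IsIntegral.isIntegral x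
  set f := (minpoly ℚ x).map (algebraMap ℚ (AlgebraicClosure ℚ)) with hf
  have hs : f.Splits := IsAlgClosed.splits f
  have hm : f.Monic := (minpoly.monic hint).map _
  have hroot : ∀ r ∈ f.roots, ‖iota p r‖ = 1 := by
    intro r hr
    have hr' : r ∈ (minpoly ℚ x).aroots (AlgebraicClosure ℚ) := hr
    have h1 : IsConjRoot ℚ x r := (isConjRoot_iff_mem_minpoly_aroots hint).2 hr'
    obtain ⟨g, hg⟩ := isConjRoot_iff_exists_algEquiv.1 h1.symm
    have h2 := h g.toRingEquiv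
    have h3 : g.toRingEquiv x = r := hg
    rwa [h3] at h2
  let T : Subring (PadicAlgCl p) := (Valued.v : Valuation (PadicAlgCl p) NNReal).integer
  have hT : ∀ a : PadicAlgCl p, a ∈ T ↔ ‖a‖ ≤ 1 := by
    intro a
    rw [Valuation.mem_integer_iff, ← NNReal.coe_le_coe, PadicAlgCl.valuation_coe]
    rfl
  have hlift : f.map (iota p).toRingHom ∈ lifts T.subtype := by
    refine (hs.map _).mem_lift_of_roots_mem_range (hm.map _) _ fun a ha => ?_
    rw [hs.roots_map, Multiset.mem_map] at ha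
    obtain ⟨r, hr, rfl⟩ := ha
    have : (iota p).toRingHom r ∈ T := (hT _).2 (hroot r hr).le
    exact ⟨⟨_, this⟩, rfl⟩
  rw [lifts_iff_coeff_lifts] at hlift
  obtain ⟨⟨b, hb⟩, hb'⟩ := hlift i
  have h4 : b = ((minpoly ℚ x).coeff i : PadicAlgCl p) := by
    have h5 : b = (f.map (iota p).toRingHom).coeff i := hb'
    rw [h5, coeff_map, hf, coeff_map]
    exact map_ratCast (iota p) _
  have h6 : ‖b‖ ≤ 1 := (hT b).1 hb
  rw [h4] at h6
  rw [← PadicAlgCl.norm_extends]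
  rwa [map_ratCast]

/-- The minimal polynomial of a multiple. -/
lemma minpoly_mul (x : AlgebraicClosure ℚ) (c : ℚ) (hc : c ≠ 0) :
    minpoly ℚ (algebraMap ℚ (AlgebraicClosure ℚ) c * x) = (minpoly ℚ x).scaleRoots c := by
  have hint : IsIntegral ℚ x := Algebra.IsIntegral.isIntegral x
  symm
  refine minpoly.unique ℚ _ ((monic_scaleRoots_iff c).2 (minpoly.monic hint))
    (scaleRoots_aeval_eq_zero (minpoly.aeval ℚ x)) fun q hq h0 => ?_
  rw [degree_scaleRoots, ← degree_scaleRoots q (s := c⁻¹)]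
  refine minpoly.min ℚ x ((monic_scaleRoots_iff _).2 hq) ?_
  have h1 := scaleRoots_aeval_eq_zero (r := c⁻¹) h0
  rwa [← mul_assoc, ← map_mul, inv_mul_cancel₀ hc, map_one, one_mul] at h1

lemma int_of (q : ℚ) (n : ℕ) (m : ℤ) (h1 : ‖(q : ℚ_[p])‖ ≤ 1) (h2 : q * (p : ℚ) ^ n = m) :
    ∃ k : ℤ, q = k := by
  have hp0 : (p : ℚ) ≠ 0 := by exact_mod_cast hp.out.ne_zero
  have h3 : ‖(m : ℚ_[p])‖ ≤ (p : ℝ) ^ (-n : ℤ) := by
    have h4 : (m : ℚ_[p]) = (q : ℚ_[p]) * (p : ℚ_[p]) ^ n := by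
      have : ((m : ℚ) : ℚ_[p]) = ((q * (p : ℚ) ^ n : ℚ) : ℚ_[p]) := by rw [h2]
      push_cast at this
      exact this
    rw [h4, norm_mul, norm_pow, Padic.norm_p, zpow_neg, zpow_natCast, inv_pow]
    have h5 : (0 : ℝ) ≤ ((p : ℝ) ^ n)⁻¹ := by positivity
    exact mul_le_of_le_one_left h5 h1
  rw [Padic.norm_int_le_pow_iff_dvd] at h3
  obtain ⟨k, hk⟩ := h3
  refine ⟨k, ?_⟩
  have h6 : q * (p : ℚ) ^ n = k * (p : ℚ) ^ n := by
    rw [h2, hk]; push_cast; ring
  exact mul_right_cancel₀ (pow_ne_zero n hp0) h6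

lemma integral (x : AlgebraicClosure ℚ) (a : ℕ)
    (hi : IsIntegral ℤ ((p : AlgebraicClosure ℚ) ^ a * x))
    (h : ∀ g : AlgebraicClosure ℚ ≃+* AlgebraicClosure ℚ, ‖iota p (g x)‖ = 1) :
    IsIntegral ℤ x := by
  have hint : IsIntegral ℚ x := Algebra.IsIntegral.isIntegral x
  have hp0 : (p : ℚ) ≠ 0 := by exact_mod_cast hp.out.ne_zero
  have hc : (p : AlgebraicClosure ℚ) ^ a * x =
      algebraMap ℚ (AlgebraicClosure ℚ) ((p : ℚ) ^ a) * x := by
    rw [map_pow, map_natCast]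
  have h1 : (minpoly ℤ ((p : AlgebraicClosure ℚ) ^ a * x)).map (algebraMap ℤ ℚ) =
      (minpoly ℚ x).scaleRoots ((p : ℚ) ^ a) := by
    rw [← minpoly.isIntegrallyClosed_eq_field_fractions' ℚ hi, hc,
      minpoly_mul x _ (pow_ne_zero a hp0)]
  have h2 : ∀ i, ∃ k : ℤ, (minpoly ℚ x).coeff i = k := by
    intro i
    refine int_of p _ (a * ((minpoly ℚ x).natDegree - i))
      ((minpoly ℤ ((p : AlgebraicClosure ℚ) ^ a * x)).coeff i) (coeff_norm p x h i) ?_
    have h3 := congrArg (fun f => f.coeff i) h1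
    simp only [coeff_map, coeff_scaleRoots] at h3
    rw [pow_mul]
    exact h3.symm
  have h3 : minpoly ℚ x ∈ lifts (algebraMap ℤ ℚ) := by
    rw [lifts_iff_coeff_lifts]
    intro i
    obtain ⟨k, hk⟩ := h2 i
    exact ⟨k, hk.symm⟩
  obtain ⟨q, hq, -, hqm⟩ := lifts_and_natDegree_eq_and_monic h3 (minpoly.monic hint)
  refine ⟨q, hqm, ?_⟩
  have h4 := minpoly.aeval ℚ x
  rw [← hq, aeval_map_algebraMap] at h4
  exact h4

/-- Kronecker. -/
lemma kron (x : AlgebraicClosure ℚ) (hi : IsIntegral ℤ x)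
    (h : ∀ φ : AlgebraicClosure ℚ →+* ℂ, ‖φ x‖ = 1) : ∃ m : ℕ, 0 < m ∧ x ^ m = 1 := by
  have hint : IsIntegral ℚ x := Algebra.IsIntegral.isIntegral x
  let K := IntermediateField.adjoin ℚ {x}
  have hfd : FiniteDimensional ℚ K := IntermediateField.adjoin.finiteDimensional hint
  have hnf : NumberField K := ⟨⟩
  let y : K := ⟨x, IntermediateField.mem_adjoin_simple_self ℚ x⟩
  have hy : IsIntegral ℤ y := by
    have h1 : IsIntegral ℤ (algebraMap K (AlgebraicClosure ℚ) y) := hi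
    exact (isIntegral_algebraMap_iff (algebraMap K (AlgebraicClosure ℚ)).injective).1 h1
  obtain ⟨n, hn, hn'⟩ := NumberField.Embeddings.pow_eq_one_of_norm_eq_one K ℂ hy (fun φ => by
    let _ : Algebra K ℂ := φ.toAlgebra
    let ψ : AlgebraicClosure ℚ →ₐ[K] ℂ := IsAlgClosed.lift
    have h1 : ψ x = φ y := ψ.commutes y
    rw [← h1]
    exact h ψ.toRingHom)
  refine ⟨n, hn, ?_⟩
  have h2 := congrArg (algebraMap K (AlgebraicClosure ℚ)) hn'
  rw [map_pow, map_one] at h2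
  exact h2

end iota

theorem pla : S_PLA := by
  intro p hp ζ hζ
  refine ⟨val p, fun x y hx hy => val_mul p x y hx hy, fun t => exists_d p ζ hζ t, ?_⟩
  intro x a hx hi h1 h2
  exact kron x (integral p x a hi (conj_norm p ζ hζ x hx h1)) h2

end Pool.Agent.H856.WD
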