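import Pool.Agent.H856.WD.Act

/-! # The combinatorial part: words with vanishing slopes (proof) -/

set_option autoImplicit false

open Equiv

namespace Pool.Agent.H856.WD.ActProof

/-- a cycle of length three -/
def r : Perm (Fin 3) := finRotate 3

/-- the transposition given by the change of signs -/
def n : Perm (Fin 3) := swap 0 2

lemma D1 : ∀ p : Perm (Fin 3), p ≠ 1 → p = r ∨ p * p = r ∨ p * r * p⁻¹ * r⁻¹ = r := by decide

lemma D2 : ∀ q : Perm (Fin 3), q 1 ≠ 1 → q * n * q⁻¹ * n⁻¹ = r ∨
    (q * n * q⁻¹ * n⁻¹) * (q * n * q⁻¹ * n⁻¹) = r := by decide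

lemma D3 : ∀ p : Perm (Fin 3), ∃ i : Fin 3, ∃ j : Fin 2, p = r ^ (i : ℕ) * n ^ (j : ℕ) := by decide

lemma D4 : ∀ b : Perm (Fin 3), b * b * b = 1 → b ≠ 1 → b = r ∨ b = r * r := by decide

lemma D5 : ∀ i : Fin 3, ∀ j : Fin 2,
    r ^ (i : ℕ) * n ^ (j : ℕ) = n * ((r * r) ^ (i : ℕ) * n ^ (j : ℕ)) * n := by decide

lemma D6 : ∀ j : Fin 2, r ≠ n ^ (j : ℕ) := by decide

lemma D7 : r * r * r = 1 := by decide

lemma D8 : ∀ q : Perm (Fin 3), q * q = 1 → q ≠ 1 → ∃ π : Perm (Fin 3), q * π = π * n := by decide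

lemma D9 : ∀ p : Perm (Fin 3), p 1 = 1 → p = 1 ∨ p = n := by decide

lemma D10 : ∀ p : Perm (Fin 2), p = 1 ∨ p = swap 0 1 := by decide

lemma ias {α : Type} (f : Perm α) (x : α) : f⁻¹ (f x) = x := f.symm_apply_apply x

lemma asi {α : Type} (f : Perm α) (x : α) : f (f⁻¹ x) = x := f.apply_symm_apply x

section three

variable {G : Type} [Group G]

/-- two actions on three points: independence or equivalence -/
lemma rel (ρ ρ0 : G →* Perm (Fin 3)) (e : G) (h1 : ρ e = n) (h2 : ρ0 e = n)
    (h3 : ∃ h, ρ h = r) (h4 : ∃ h, ρ0 h = r) :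
    (∃ h, ρ h = 1 ∧ ρ0 h = r) ∨ ρ = ρ0 ∨ (∀ g, ρ g = n * ρ0 g * n) := by
  obtain ⟨a, ha⟩ := h3
  obtain ⟨a0, ha0⟩ := h4
  by_cases H : ∃ k, ρ k = 1 ∧ ρ0 k ≠ 1
  · left
    obtain ⟨k, hk, hk0⟩ := H
    rcases D1 _ hk0 with h | h | h
    · exact ⟨k, hk, h⟩
    · exact ⟨k * k, by rw [map_mul, hk, one_mul], by rw [map_mul, h]⟩
    · refine ⟨k * a0 * k⁻¹ * a0⁻¹, ?_, ?_⟩
      · simp [map_mul, hk]
      · rw [map_mul, map_mul, map_mul, map_inv, map_inv, ha0]
        exact h
  · right
    push Not at H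
    have key : ∀ g, ∃ i : Fin 3, ∃ j : Fin 2, ρ g = r ^ (i : ℕ) * n ^ (j : ℕ) ∧
        ρ0 g = (ρ0 a) ^ (i : ℕ) * n ^ (j : ℕ) := by
      intro g
      obtain ⟨i, j, hij⟩ := D3 (ρ g)
      refine ⟨i, j, hij, ?_⟩
      have h5 : ρ (g⁻¹ * (a ^ (i : ℕ) * e ^ (j : ℕ))) = 1 := by
        rw [map_mul, map_inv, map_mul, map_pow, map_pow, ha, h1, hij, inv_mul_cancel]
      have h6 := H _ h5
      rw [map_mul, map_inv, map_mul, map_pow, map_pow, h2, inv_mul_eq_one] at h6
      exact h6
    have hb3 : ρ0 a * ρ0 a * ρ0 a = 1 := by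
      rw [← map_mul, ← map_mul]
      apply H
      rw [map_mul, map_mul, ha, D7]
    have hb1 : ρ0 a ≠ 1 := by
      intro hb
      obtain ⟨i, j, _, h7⟩ := key a0
      rw [hb, one_pow, one_mul, ha0] at h7
      exact D6 j h7
    rcases D4 _ hb3 hb1 with hb | hb
    · left
      ext1 g
      obtain ⟨i, j, h7, h8⟩ := key g
      rw [h7, h8, hb]
    · right
      intro g
      obtain ⟨i, j, h7, h8⟩ := key g
      rw [h7, h8, hb]
      exact D5 i j

/-- the operators `1 - R` -/
lemma ops {T ι : Type} (ρ : T → G →* Perm (Fin 3)) (ρ0 : G →* Perm (Fin 3)) (τ : ι → T)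
    (W : Multiset ι) : ∀ (Φ : Perm (Fin 3) → ℝ) (E : ι → G → ℝ),
    (∀ x ∈ W, ∃ h, ρ (τ x) h = 1 ∧ ρ0 h = r) →
    (∀ x ∈ W, ∀ k, ρ (τ x) k = 1 → ∀ g, E x (g * k) = E x g) →
    (∀ p, Φ p + Φ (p * r) + Φ (p * r * r) = 0) →
    (∀ g, Φ (ρ0 g) + (W.map fun x => E x g).sum = 0) → ∀ g, Φ (ρ0 g) = 0 := by
  induction W using Multiset.induction_on with
  | empty =>
    intro Φ E _ _ _ h g
    have := h g
    simpa using this
  | cons a W ih =>
    intro Φ E hbad hinv hΦ hsum g
    obtain ⟨h, hh1, hh2⟩ := hbad a (Multiset.mem_cons_self a W)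
    have h1 := ih (fun p => Φ (p * r) - Φ p) (fun x g => E x (g * h) - E x g)
      (fun x hx => hbad x (Multiset.mem_cons_of_mem hx))
      (by
        intro x hx k hk g
        have h2 := hinv x (Multiset.mem_cons_of_mem hx)
        have h3 : g * k * h = g * h * (h⁻¹ * k * h) := by group
        show E x (g * k * h) - E x (g * k) = E x (g * h) - E x g
        rw [h3, h2 _ (by simp [map_mul, hk]), h2 k hk])
      (by
        intro p
        have h4 := hΦ p
        have h5 := hΦ (p * r)
        show Φ (p * r) - Φ p + (Φ (p * r * r) - Φ (p * r)) +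
          (Φ (p * r * r * r) - Φ (p * r * r)) = 0
        linarith)
      (by
        intro g
        have h4 := hsum g
        have h5 := hsum (g * h)
        rw [Multiset.map_cons, Multiset.sum_cons] at h4 h5
        rw [map_mul, hh2] at h5
        have h6 := hinv a (Multiset.mem_cons_self a W) h hh1 g
        rw [Multiset.sum_map_sub]
        show Φ (ρ0 g * r) - Φ (ρ0 g) + ((W.map fun x => E x (g * h)).sum -
          (W.map fun x => E x g).sum) = 0
        linarith)
    have h2 : ∀ g, Φ (ρ0 g * r) = Φ (ρ0 g) := fun g => by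
      have : Φ (ρ0 g * r) - Φ (ρ0 g) = 0 := h1 g
      linarith
    have h3 := h2 g
    have h4 := h2 (g * h)
    rw [map_mul, hh2] at h4
    have h5 := hΦ (ρ0 g)
    linarith

lemma sum3 (c : Fin 3 → ℝ) (h1 : c 1 = 0) (h2 : c 2 = -c 0) (p : Perm (Fin 3)) (i : Fin 3) :
    c (p i) + c ((p * r) i) + c ((p * r * r) i) = 0 := by
  have h0 : ∀ (p : Perm (Fin 3)) (i : Fin 3), ({p i, (p * r) i, (p * r * r) i} : Finset (Fin 3)) =
      Finset.univ ∧ p i ≠ (p * r) i ∧ p i ≠ (p * r * r) i ∧ (p * r) i ≠ (p * r * r) i := by decide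
  obtain ⟨h3, h4, h5, h6⟩ := h0 p i
  have h7 : ∑ j : Fin 3, c j = 0 := by
    rw [Fin.sum_univ_three, h1, h2]; ring
  rw [← h3, Finset.sum_insert (by
      rw [Finset.mem_insert, Finset.mem_singleton, not_or]; exact ⟨h4, h5⟩),
    Finset.sum_insert (by rw [Finset.mem_singleton]; exact h6), Finset.sum_singleton] at h7
  linarith

/-- three letters, no fixed points -/
lemma main3 {T ι : Type} (ρ : T → G →* Perm (Fin 3)) (τ : ι → T) (lam : ι → Fin 3)
    (c : Fin 3 → ℝ) (hc0 : c 0 ≠ 0) (hc1 : c 1 = 0) (hc2 : c 2 = -c 0) (e : G)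
    (he : ∀ t, ρ t e = n) (hf : ∀ t, ∃ g, ρ t g 1 ≠ 1) (w : Multiset ι) (hw : w ≠ 0)
    (hs : ∀ g, (w.map fun x => c (ρ (τ x) g (lam x))).sum = 0)
    (hd : ∀ x ∈ w, ∀ y ∈ w, x ≠ y →
      ¬ ∀ g, c (ρ (τ x) g (lam x)) + c (ρ (τ y) g (lam y)) = 0) :
    ∃ x0 ∈ w, ∀ i, ∃ x ∈ w, lam x = i ∧ ρ (τ x) = ρ (τ x0) := by
  classical
  have hsurj : ∀ t, ∃ h, ρ t h = r := by
    intro t
    obtain ⟨g, hg⟩ := hf t
    rcases D2 _ hg with h | h
    · exact ⟨g * e * g⁻¹ * e⁻¹, by simp only [map_mul, map_inv, he]; exact h⟩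
    · exact ⟨(g * e * g⁻¹ * e⁻¹) * (g * e * g⁻¹ * e⁻¹), by
        simp only [map_mul, map_inv, he]; exact h⟩
  obtain ⟨x0, hx0⟩ := Multiset.exists_mem_of_ne_zero hw
  refine ⟨x0, hx0, ?_⟩
  set ρ0 := ρ (τ x0) with hρ0
  have hall : ∀ p : Perm (Fin 3), ∃ g, ρ0 g = p := by
    intro p
    obtain ⟨i, j, hij⟩ := D3 p
    obtain ⟨h, hh⟩ := hsurj (τ x0)
    exact ⟨h ^ (i : ℕ) * e ^ (j : ℕ), by rw [map_mul, map_pow, map_pow, hρ0, hh, he, hij]⟩
  have hcn : ∀ i, c (n i) = -c i := by
    intro i
    fin_cases i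
    · show c 2 = -c 0
      exact hc2
    · show c 1 = -c 1
      rw [hc1]; simp
    · show c 0 = -c 2
      rw [hc2]; simp
  -- the weights
  let u : ι → Fin 3 → ℝ := fun x i =>
    if ρ (τ x) = ρ0 then (if lam x = i then 1 else 0)
    else if (∀ g, ρ (τ x) g = n * ρ0 g * n) then (if n (lam x) = i then -1 else 0) else 0
  let good : ι → Prop := fun x => ρ (τ x) = ρ0 ∨ (∀ g, ρ (τ x) g = n * ρ0 g * n)
  let Φ : Perm (Fin 3) → ℝ := fun p => ((w.filter good).map fun x => ∑ i, u x i * c (p i)).sum
  have hu : ∀ x, good x → ∀ g, c (ρ (τ x) g (lam x)) = ∑ i, u x i * c (ρ0 g i) := by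
    intro x hx g
    by_cases h1 : ρ (τ x) = ρ0
    · have h2 : ∀ i, u x i = if lam x = i then 1 else 0 := fun i => if_pos h1
      simp only [h2, ite_mul, one_mul, zero_mul]
      rw [Finset.sum_ite_eq]
      simp [h1]
    · have h3 : ∀ g, ρ (τ x) g = n * ρ0 g * n := by
        rcases hx with h | h
        · exact absurd h h1
        · exact h
      have h2 : ∀ i, u x i = if n (lam x) = i then -1 else 0 := fun i => by
        show (if ρ (τ x) = ρ0 then (if lam x = i then (1 : ℝ) else 0)
          else if (∀ g, ρ (τ x) g = n * ρ0 g * n) then (if n (lam x) = i then -1 else 0) else 0) = _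
        rw [if_neg h1, if_pos h3]
      simp only [h2, ite_mul, neg_mul, one_mul, zero_mul]
      rw [Finset.sum_ite_eq]
      simp only [Finset.mem_univ, if_true]
      rw [h3, Perm.mul_apply, Perm.mul_apply, hcn]
  have hΦ0 : ∀ g, Φ (ρ0 g) = 0 := by
    refine ops ρ ρ0 τ (w.filter fun x => ¬ good x) Φ (fun x g => c (ρ (τ x) g (lam x))) ?_ ?_ ?_ ?_
    · intro x hx
      have h1 := (Multiset.mem_filter.mp hx).2
      rcases rel (ρ (τ x)) ρ0 e (he _) (he _) (hsurj _) (hsurj _) with h | h | h
      · exact h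
      · exact absurd (Or.inl h) h1
      · exact absurd (Or.inr h) h1
    · intro x _ k hk g
      simp only [map_mul, hk, mul_one]
    · intro p
      show ((w.filter good).map fun x => ∑ i, u x i * c (p i)).sum +
        ((w.filter good).map fun x => ∑ i, u x i * c ((p * r) i)).sum +
        ((w.filter good).map fun x => ∑ i, u x i * c ((p * r * r) i)).sum = 0
      rw [← Multiset.sum_map_add, ← Multiset.sum_map_add]
      have h1 : ∀ x, (∑ i, u x i * c (p i) + ∑ i, u x i * c ((p * r) i)) +
          ∑ i, u x i * c ((p * r * r) i) = 0 := by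
        intro x
        rw [← Finset.sum_add_distrib, ← Finset.sum_add_distrib]
        refine Finset.sum_eq_zero fun i _ => ?_
        rw [← mul_add, ← mul_add, sum3 c hc1 hc2, mul_zero]
      simp only [h1]
      simp
    · intro g
      have h1 := hs g
      rw [← Multiset.filter_add_not good w, Multiset.map_add, Multiset.sum_add] at h1
      have h2 : ((w.filter good).map fun x => c (ρ (τ x) g (lam x))).sum = Φ (ρ0 g) := by
        refine congrArg Multiset.sum (Multiset.map_congr rfl fun x hx => ?_)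
        exact hu x (Multiset.mem_filter.mp hx).2 g
      rw [h2] at h1
      exact h1
  let m : Fin 3 → ℝ := fun i => ((w.filter good).map fun x => u x i).sum
  have hΦm : ∀ p, Φ p = m 0 * c (p 0) + m 1 * c (p 1) + m 2 * c (p 2) := by
    intro p
    show ((w.filter good).map fun x => ∑ i, u x i * c (p i)).sum = _
    simp only [Fin.sum_univ_three, m]
    rw [Multiset.sum_map_add, Multiset.sum_map_add, Multiset.sum_map_mul_right,
      Multiset.sum_map_mul_right, Multiset.sum_map_mul_right]
  have hp : ∀ p : Perm (Fin 3), m 0 * c (p 0) + m 1 * c (p 1) + m 2 * c (p 2) = 0 := by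
    intro p
    obtain ⟨g, rfl⟩ := hall p
    rw [← hΦm]
    exact hΦ0 g
  have hm02 : m 0 = m 2 := by
    have h1 := hp 1
    simp only [Perm.one_apply, hc1, hc2] at h1
    have h2 : (m 0 - m 2) * c 0 = 0 := by linarith
    have h3 := (mul_eq_zero.mp h2).resolve_right hc0
    linarith
  have hm12 : m 1 = m 2 := by
    have h1 := hp (swap 0 1)
    have e0 : (swap 0 1 : Perm (Fin 3)) 0 = 1 := by decide
    have e1 : (swap 0 1 : Perm (Fin 3)) 1 = 0 := by decide
    have e2 : (swap 0 1 : Perm (Fin 3)) 2 = 2 := by decide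
    rw [e0, e1, e2, hc1, hc2] at h1
    have h2 : (m 1 - m 2) * c 0 = 0 := by linarith
    have h3 := (mul_eq_zero.mp h2).resolve_right hc0
    linarith
  have hg0 : good x0 := Or.inl rfl
  have hu0 : u x0 (lam x0) = 1 := by
    show (if ρ (τ x0) = ρ0 then (if lam x0 = lam x0 then (1 : ℝ) else 0) else _) = 1
    rw [if_pos rfl, if_pos rfl]
  have hnn : ∀ x ∈ w.filter good, 0 ≤ u x (lam x0) := by
    intro x hx
    obtain ⟨hxw, hxg⟩ := Multiset.mem_filter.mp hx
    by_cases h1 : ρ (τ x) = ρ0
    · have h2 : u x (lam x0) = if lam x = lam x0 then 1 else 0 := if_pos h1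
      rw [h2]
      split_ifs <;> norm_num
    · have h3 : ∀ g, ρ (τ x) g = n * ρ0 g * n := hxg.resolve_left h1
      have h2 : u x (lam x0) = if n (lam x) = lam x0 then -1 else 0 := by
        show (if ρ (τ x) = ρ0 then (if lam x = lam x0 then (1 : ℝ) else 0)
          else if (∀ g, ρ (τ x) g = n * ρ0 g * n) then (if n (lam x) = lam x0 then -1 else 0)
            else 0) = _
        rw [if_neg h1, if_pos h3]
      rw [h2]
      split_ifs with h4
      · exfalso
        refine hd x0 hx0 x hxw (fun h5 => h1 (by rw [← h5])) fun g => ?_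
        rw [h3, Perm.mul_apply, Perm.mul_apply, hcn, h4]
        show c (ρ0 g (lam x0)) + _ = 0
        ring
      · exact le_refl _
  have hpos : 0 < m (lam x0) := by
    have hx0f : x0 ∈ w.filter good := Multiset.mem_filter.mpr ⟨hx0, hg0⟩
    obtain ⟨w', hw'⟩ := Multiset.exists_cons_of_mem hx0f
    show 0 < ((w.filter good).map fun x => u x (lam x0)).sum
    rw [hw', Multiset.map_cons, Multiset.sum_cons, hu0]
    have h1 : 0 ≤ (w'.map fun x => u x (lam x0)).sum := by
      refine Multiset.sum_nonneg fun y hy => ?_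
      obtain ⟨x, hx, rfl⟩ := Multiset.mem_map.mp hy
      exact hnn x (by rw [hw']; exact Multiset.mem_cons_of_mem hx)
    linarith
  have hpos' : ∀ i, 0 < m i := by
    have h1 : ∀ i, m i = m 2 := by
      intro i
      fin_cases i
      · exact hm02
      · exact hm12
      · rfl
    intro i
    rw [h1 i, ← h1 (lam x0)]
    exact hpos
  intro i
  have h1 := hpos' i
  by_contra hno
  push Not at hno
  have h2 : m i ≤ 0 := by
    show ((w.filter good).map fun x => u x i).sum ≤ 0
    have h3 : ∀ y ∈ (w.filter good).map (fun x => u x i), y ≤ 0 := by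
      intro y hy
      obtain ⟨x, hx, rfl⟩ := Multiset.mem_map.mp hy
      obtain ⟨hxw, hxg⟩ := Multiset.mem_filter.mp hx
      by_cases h1 : ρ (τ x) = ρ0
      · have h2 : u x i = if lam x = i then 1 else 0 := if_pos h1
        rw [h2, if_neg (fun h => hno x hxw h h1)]
      · have h3 : ∀ g, ρ (τ x) g = n * ρ0 g * n := hxg.resolve_left h1
        have h2 : u x i = if n (lam x) = i then -1 else 0 := by
          show (if ρ (τ x) = ρ0 then (if lam x = i then (1 : ℝ) else 0)
            else if (∀ g, ρ (τ x) g = n * ρ0 g * n) then (if n (lam x) = i then -1 else 0)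
              else 0) = _
          rw [if_neg h1, if_pos h3]
        rw [h2]
        split_ifs <;> norm_num
    have h4 := Multiset.sum_le_card_nsmul _ 0 h3
    simpa using h4
  linarith

end three

section sign

variable {G : Type} [Group G]

lemma pair_le {ι : Type} {w : Multiset ι} {x y : ι} (hx : x ∈ w) (hy : y ∈ w) (h : x ≠ y) :
    {x, y} ≤ w := by
  have h1 : ({x, y} : Multiset ι).Nodup := by
    show (x ::ₘ {y}).Nodup
    rw [Multiset.nodup_cons]
    exact ⟨by rw [Multiset.mem_singleton]; exact h, Multiset.nodup_singleton y⟩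
  rw [Multiset.le_iff_subset h1]
  intro z hz
  rcases Multiset.mem_cons.mp hz with rfl | hz
  · exact hx
  · rw [Multiset.mem_singleton] at hz
    rw [hz]; exact hy

/-- the group acts by signs on the letters -/
lemma main2 {T ι : Type} (ε : T → G →* ℝ) (τ : ι → T) (v : ι → ℝ) (σ : ℝ) (hσ : σ ≠ 0)
    (hv : ∀ x, v x = 0 ∨ v x = σ ∨ v x = -σ) (w : Multiset ι) (hw : 2 ≤ w.card)
    (hs : ∀ g, (w.map fun x => ε (τ x) g * v x).sum = 0) :
    ∃ x y, {x, y} ≤ w ∧ ∀ g, ε (τ x) g * v x + ε (τ y) g * v y = 0 := by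
  classical
  by_cases h0 : ∀ x ∈ w, v x = 0
  · obtain ⟨a, w1, rfl⟩ : ∃ a w1, w = a ::ₘ w1 := by
      have h1 : w ≠ 0 := by rintro rfl; simp at hw
      obtain ⟨a, ha⟩ := Multiset.exists_mem_of_ne_zero h1
      obtain ⟨w1, h2⟩ := Multiset.exists_cons_of_mem ha
      exact ⟨a, w1, h2⟩
    obtain ⟨b, w2, rfl⟩ : ∃ b w2, w1 = b ::ₘ w2 := by
      have h1 : w1 ≠ 0 := by rintro rfl; simp at hw
      obtain ⟨a, ha⟩ := Multiset.exists_mem_of_ne_zero h1
      obtain ⟨w1, h2⟩ := Multiset.exists_cons_of_mem ha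
      exact ⟨a, w1, h2⟩
    refine ⟨a, b, ?_, fun g => ?_⟩
    · show a ::ₘ b ::ₘ 0 ≤ a ::ₘ b ::ₘ w2
      exact (Multiset.cons_le_cons_iff a).mpr ((Multiset.cons_le_cons_iff b).mpr
        (Multiset.zero_le w2))
    · rw [h0 a (by simp), h0 b (by simp)]; simp
  · push Not at h0
    obtain ⟨x0, hx0, hx0v⟩ := h0
    let l : (G →* ℝ) →₀ ℝ := (w.map fun x => Finsupp.single (ε (τ x)) (v x)).sum
    have h1 : Finsupp.linearCombination ℝ (fun f : G →* ℝ => (f : G → ℝ)) l = 0 := by
      show Finsupp.linearCombination ℝ (fun f : G →* ℝ => (f : G → ℝ))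
        (w.map fun x => Finsupp.single (ε (τ x)) (v x)).sum = 0
      rw [map_multiset_sum, Multiset.map_map]
      have h2 : (w.map ((Finsupp.linearCombination ℝ (fun f : G →* ℝ => (f : G → ℝ))) ∘
          fun x => Finsupp.single (ε (τ x)) (v x))) =
          w.map fun x => v x • (ε (τ x) : G → ℝ) := by
        refine Multiset.map_congr rfl fun x _ => ?_
        simp [Finsupp.linearCombination_single]
      rw [h2]
      funext g
      have h3 : (Pi.evalAddMonoidHom (fun _ : G => ℝ) g)
          (w.map fun x => v x • (ε (τ x) : G → ℝ)).sum = 0 := by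
        rw [map_multiset_sum, Multiset.map_map]
        rw [← hs g]
        refine congrArg Multiset.sum (Multiset.map_congr rfl fun x _ => ?_)
        simp [mul_comm]
      exact h3
    have h2 : l = 0 := by
      have h3 := linearIndependent_monoidHom G ℝ
      exact (linearIndependent_iff.mp h3) l h1
    have h3 : (w.map fun x => if ε (τ x) = ε (τ x0) then v x else 0).sum = 0 := by
      have h4 : (Finsupp.applyAddHom (M := ℝ) (ε (τ x0))) l = 0 := by rw [h2]; simp
      have h5 : (Finsupp.applyAddHom (M := ℝ) (ε (τ x0))) l =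
          (w.map fun x => if ε (τ x) = ε (τ x0) then v x else 0).sum := by
        show (Finsupp.applyAddHom (M := ℝ) (ε (τ x0)))
          (w.map fun x => Finsupp.single (ε (τ x)) (v x)).sum = _
        rw [map_multiset_sum, Multiset.map_map]
        refine congrArg Multiset.sum (Multiset.map_congr rfl fun x _ => ?_)
        simp [Finsupp.single_apply]
      rw [← h5, h4]
    by_cases h4 : ∃ x1 ∈ w, ε (τ x1) = ε (τ x0) ∧ v x1 = -v x0
    · obtain ⟨x1, hx1, h5, h6⟩ := h4
      refine ⟨x0, x1, pair_le hx0 hx1 ?_, fun g => ?_⟩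
      · rintro rfl
        apply hx0v
        linarith
      · rw [h5, h6]; ring
    · exfalso
      push Not at h4
      obtain ⟨w', hw'⟩ := Multiset.exists_cons_of_mem hx0
      have h5 : ∀ x ∈ w, 0 ≤ (if ε (τ x) = ε (τ x0) then v x else 0) / v x0 := by
        intro x hx
        split_ifs with h6
        · have h7 := h4 x hx h6
          rcases hv x with h8 | h8 | h8 <;> rcases hv x0 with h9 | h9 | h9
          · exact absurd h9 hx0v
          · rw [h8]; simp
          · rw [h8]; simp
          · exact absurd h9 hx0v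
          · rw [h8, h9, div_self hσ]; norm_num
          · exact absurd (by rw [h8, h9, neg_neg]) h7
          · exact absurd h9 hx0v
          · exact absurd (by rw [h8, h9]) h7
          · rw [h8, h9, div_self (neg_ne_zero.mpr hσ)]; norm_num
        · simp
      have h6 : (w.map fun x => (if ε (τ x) = ε (τ x0) then v x else 0) / v x0).sum = 0 := by
        rw [Multiset.sum_map_div, h3, zero_div]
      rw [hw', Multiset.map_cons, Multiset.sum_cons, if_pos rfl, div_self hx0v] at h6
      have h7 : 0 ≤ (w'.map fun x => (if ε (τ x) = ε (τ x0) then v x else 0) / v x0).sum := by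
        refine Multiset.sum_nonneg fun y hy => ?_
        obtain ⟨x, hx, rfl⟩ := Multiset.mem_map.mp hy
        exact h5 x (by rw [hw']; exact Multiset.mem_cons_of_mem hx)
      linarith

end sign

section red

variable {G T : Type} [Group G] {N : ℕ}

/-- the action on a fibre -/
def res (act : G →* Perm (T × Fin N)) (hact : ∀ (g : G) (x : T × Fin N), (act g x).1 = x.1)
    (t : T) : G →* Perm (Fin N) where
  toFun g :=
    { toFun := fun i => (act g (t, i)).2
      invFun := fun i => (act g⁻¹ (t, i)).2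
      left_inv := fun i => by
        have h1 : (t, (act g (t, i)).2) = act g (t, i) := Prod.ext (hact g (t, i)).symm rfl
        show (act g⁻¹ (t, (act g (t, i)).2)).2 = i
        rw [h1, map_inv, ias]
      right_inv := fun i => by
        have h1 : (t, (act g⁻¹ (t, i)).2) = act g⁻¹ (t, i) := Prod.ext (hact g⁻¹ (t, i)).symm rfl
        show (act g (t, (act g⁻¹ (t, i)).2)).2 = i
        rw [h1, map_inv, asi] }
  map_one' := by
    ext i
    simp
  map_mul' g h := by
    ext i
    have h1 : (t, (act h (t, i)).2) = act h (t, i) := Prod.ext (hact h (t, i)).symm rfl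
    show ((act (g * h) (t, i)).2 : ℕ) = ((act g (t, (act h (t, i)).2)).2 : ℕ)
    rw [h1, map_mul, Perm.mul_apply]

lemma res_eq (act : G →* Perm (T × Fin N)) (hact : ∀ (g : G) (x : T × Fin N), (act g x).1 = x.1)
    (t : T) (g : G) (i : Fin N) : act g (t, i) = (t, res act hact t g i) :=
  Prod.ext (hact g (t, i)) rfl

lemma red (act : G →* Perm (T × Fin N)) (hact : ∀ (g : G) (x : T × Fin N), (act g x).1 = x.1)
    (s : T × Fin N → ℝ) (c : Fin N → ℝ) (hc : Function.Injective c)
    (hinj : ∀ t : T, Function.Injective fun i => s (t, i))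
    (hr : ∀ t, Set.range (fun i => s (t, i)) = Set.range c) :
    ∃ (ρ : T → G →* Perm (Fin N)) (lam : T × Fin N → Fin N),
      (∀ g x, s (act g x) = c (ρ x.1 g (lam x))) ∧ (∀ t i, ∃ j, lam (t, j) = i) ∧
      (∀ x, s x = c (lam x)) ∧
      (∀ t j, (∀ g, ρ t g (lam (t, j)) = lam (t, j)) ↔ ∀ g, act g (t, j) = (t, j)) := by
  classical
  have hΦ : ∀ t, ∃ Φ : Perm (Fin N), ∀ i, s (t, Φ i) = c i := by
    intro t
    have h1 : ∀ i, ∃ j, s (t, j) = c i := by
      intro i
      have : c i ∈ Set.range (fun i => s (t, i)) := by rw [hr t]; exact ⟨i, rfl⟩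
      exact this
    choose f hf using h1
    have hfi : Function.Injective f := by
      intro i j hij
      apply hc
      rw [← hf i, ← hf j, hij]
    refine ⟨Equiv.ofBijective f (Finite.injective_iff_bijective.mp hfi), fun i => ?_⟩
    exact hf i
  choose Φ hΦ using hΦ
  have hΦ' : ∀ t j, c ((Φ t)⁻¹ j) = s (t, j) := by
    intro t j
    rw [← hΦ t ((Φ t)⁻¹ j), asi]
  let ρ : T → G →* Perm (Fin N) := fun t =>
    (MulAut.conj (Φ t)⁻¹).toMonoidHom.comp (res act hact t)
  have hρ : ∀ t g i, ρ t g i = (Φ t)⁻¹ (res act hact t g (Φ t i)) := by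
    intro t g i
    show ((MulAut.conj (Φ t)⁻¹) (res act hact t g)) i = _
    rw [MulAut.conj_apply, inv_inv]
    rfl
  refine ⟨ρ, fun x => (Φ x.1)⁻¹ x.2, ?_, ?_, ?_, ?_⟩
  · rintro g ⟨t, j⟩
    show s (act g (t, j)) = c (ρ t g ((Φ t)⁻¹ j))
    rw [hρ, asi, hΦ', res_eq act hact]
  · intro t i
    exact ⟨Φ t i, ias _ _⟩
  · rintro ⟨t, j⟩
    exact (hΦ' t j).symm
  · intro t j
    constructor
    · intro h g
      have h1 := h g
      simp only [hρ, asi] at h1
      rw [res_eq act hact, (Φ t)⁻¹.injective h1]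
    · intro h g
      have h1 := h g
      rw [res_eq act hact, Prod.mk.injEq] at h1
      show ρ t g ((Φ t)⁻¹ j) = (Φ t)⁻¹ j
      rw [hρ, asi, h1.2]

end red

theorem act_aux (G T : Type) [Group G] (N : ℕ)
    (act : G →* Equiv.Perm (T × Fin N)) (s : T × Fin N → ℝ)
    (ρ : T → G →* Perm (Fin N)) (lam : T × Fin N → Fin N) (c : Fin N → ℝ) (σ : ℝ) (hσ : σ ≠ 0)
    (hc : ∀ i, c i = 0 ∨ c i = σ ∨ c i = -σ)
    (h1 : ∀ g x, s (act g x) = c (ρ x.1 g (lam x)))
    (h2 : ∀ t g i, c (ρ t g i) = ((Perm.sign (ρ t g) : ℤ) : ℝ) * c i) :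
    ∀ w : Multiset (T × Fin N), SRel act s w → 2 ≤ w.card →
      ∃ x y, {x, y} ≤ w ∧ ∀ g : G, s (act g x) + s (act g y) = 0 := by
  intro w hs hw
  let ε : T → G →* ℝ := fun t => (Int.castRingHom ℝ).toMonoidHom.comp
    ((Units.coeHom ℤ).comp (Perm.sign.comp (ρ t)))
  have hε : ∀ t g, ε t g = ((Perm.sign (ρ t g) : ℤ) : ℝ) := fun t g => rfl
  have h3 : ∀ g x, s (act g x) = ε x.1 g * c (lam x) := by
    intro g x
    rw [h1, h2, hε]
  obtain ⟨x, y, hxy, h4⟩ := main2 ε (fun x : T × Fin N => x.1) (fun x => c (lam x)) σ hσ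
    (fun x => hc _) w hw (by
      intro g
      rw [← hs g]
      exact congrArg Multiset.sum (Multiset.map_congr rfl fun x _ => (h3 g x).symm))
  exact ⟨x, y, hxy, fun g => by rw [h3, h3]; exact h4 g⟩

theorem act_main : S_ACT := by
  intro G T _ _ _ N act s e hN hact hse hinj hrange hfix
  classical
  rcases isEmpty_or_nonempty T with hT | ⟨⟨t0⟩⟩
  · left
    intro w _ hw
    exfalso
    have : w = 0 := Multiset.eq_zero_of_forall_notMem fun x _ => isEmptyElim x.1
    rw [this] at hw
    simp at hw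
  rcases hN with rfl | rfl
  · left
    let c : Fin 2 → ℝ := fun i => s (t0, i)
    have hc : Function.Injective c := hinj t0
    have hq : ∀ i, c (res act hact t0 e i) = -c i := by
      intro i
      show s (t0, res act hact t0 e i) = -s (t0, i)
      rw [← res_eq act hact, hse]
    have h01 : c 1 = -c 0 := by
      rcases D10 (res act hact t0 e) with h | h
      · exfalso
        have h3 := hq 0
        have h4 := hq 1
        rw [h] at h3 h4
        simp only [Perm.one_apply] at h3 h4
        have h5 : c 0 = c 1 := by linarith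
        exact absurd (hc h5) (by decide)
      · have h3 := hq 0
        rw [h] at h3
        exact h3
    have hc0 : c 0 ≠ 0 := by
      intro h
      have h5 : c 0 = c 1 := by rw [h01, h]; simp
      exact absurd (hc h5) (by decide)
    obtain ⟨ρ, lam, h1, h2, h3, h4⟩ := red act hact s c hc hinj (fun t => hrange t t0)
    refine act_aux G T 2 act s ρ lam c (c 0) hc0 ?_ h1 ?_
    · intro i
      fin_cases i
      · right; left; rfl
      · right; right; exact h01
    · intro t g i
      rcases D10 (ρ t g) with h | h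
      · rw [h]; simp
      · rw [h, Perm.sign_swap (by decide)]
        fin_cases i
        · show c 1 = _ * c 0
          rw [h01]; simp
        · show c 0 = _ * c 1
          rw [h01]; simp
  · have hq : ∀ i, s (t0, res act hact t0 e i) = -s (t0, i) := by
      intro i
      rw [← res_eq act hact, hse]
    have hqq : res act hact t0 e * res act hact t0 e = 1 := by
      ext1 i
      apply hinj t0
      show s (t0, res act hact t0 e (res act hact t0 e i)) = s (t0, i)
      rw [hq, hq, neg_neg]
    have hq1 : res act hact t0 e ≠ 1 := by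
      intro h
      have h3 := hq 0
      have h4 := hq 1
      rw [h] at h3 h4
      simp only [Perm.one_apply] at h3 h4
      have h5 : s (t0, (0 : Fin 3)) = s (t0, (1 : Fin 3)) := by linarith
      exact absurd (hinj t0 h5) (by decide)
    obtain ⟨π, hπ⟩ := D8 _ hqq hq1
    have hπ' : ∀ i, res act hact t0 e (π i) = π (n i) := by
      intro i
      have := congrArg (fun p : Perm (Fin 3) => p i) hπ
      exact this
    let c : Fin 3 → ℝ := fun i => s (t0, π i)
    have hc : Function.Injective c := (hinj t0).comp π.injective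
    have hcn : ∀ i, c (n i) = -c i := by
      intro i
      show s (t0, π (n i)) = -s (t0, π i)
      rw [← hπ', hq]
    have hc1 : c 1 = 0 := by
      have h : c 1 = -c 1 := hcn 1
      linarith
    have hc2 : c 2 = -c 0 := hcn 0
    have hc0 : c 0 ≠ 0 := by
      intro h
      exact absurd (hc (h.trans hc1.symm)) (by decide)
    have hrc : Set.range c = Set.range fun i => s (t0, i) :=
      π.surjective.range_comp fun i => s (t0, i)
    obtain ⟨ρ, lam, h1, h2, h3, h4⟩ := red act hact s c hc hinj (fun t => by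
      rw [hrc]; exact hrange t t0)
    have he : ∀ t, ρ t e = n := by
      intro t
      ext1 i
      apply hc
      obtain ⟨j, rfl⟩ := h2 t i
      rw [hcn, ← h1 e (t, j), hse, h3]
    by_cases hF : ∃ t i, ∀ g : G, act g (t, i) = (t, i)
    · left
      obtain ⟨t1, hF⟩ := hF
      have h5 : ∀ t g, ρ t g 1 = 1 := by
        intro t
        obtain ⟨j, hj⟩ := hfix t1 t hF
        have h6 := (h4 t j).mpr hj
        have h7 : lam (t, j) = 1 := by
          have h8 := h6 e
          rw [he] at h8
          have h9 : ∀ i : Fin 3, n i = i → i = 1 := by decide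
          exact h9 _ h8
        intro g
        have := h6 g
        rwa [h7] at this
      refine act_aux G T 3 act s ρ lam c (c 0) hc0 ?_ h1 ?_
      · intro i
        fin_cases i
        · right; left; rfl
        · left; exact hc1
        · right; right; exact hc2
      · intro t g i
        rcases D9 (ρ t g) (h5 t g) with h | h
        · rw [h]; simp
        · rw [h, hcn]
          have h6 : Perm.sign n = -1 := by decide
          rw [h6]; simp
    · right
      intro w hs hw
      by_cases hd : ∃ x y, {x, y} ≤ w ∧ ∀ g : G, s (act g x) + s (act g y) = 0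
      · left; exact hd
      right
      have hf : ∀ t, ∃ g, ρ t g 1 ≠ 1 := by
        intro t
        by_contra hcon
        push Not at hcon
        obtain ⟨j, hj⟩ := h2 t 1
        exact hF ⟨t, j, (h4 t j).mp (by rw [hj]; exact hcon)⟩
      obtain ⟨x0, _, hx0⟩ := main3 ρ (fun x : T × Fin 3 => x.1) lam c hc0 hc1 hc2 e he hf w hw
        (by
          intro g
          rw [← hs g]
          exact congrArg Multiset.sum (Multiset.map_congr rfl fun x _ => (h1 g x).symm))
        (by
          intro x hx y hy hxy hcon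
          exact hd ⟨x, y, pair_le hx hy hxy, fun g => by rw [h1, h1]; exact hcon g⟩)
      choose b hbw hb1 hb2 using hx0
      refine ⟨x0.1, fun i => b (lam (x0.1, i)), ?_, ?_⟩
      · intro i g
        rw [h1, h1, hb1, hb2]
      · have hai : Function.Injective fun i => b (lam (x0.1, i)) := by
          intro i j hij
          apply hinj x0.1
          have h5 : lam (b (lam (x0.1, i))) = lam (b (lam (x0.1, j))) := by
            have : b (lam (x0.1, i)) = b (lam (x0.1, j)) := hij
            rw [this]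
          rw [hb1, hb1] at h5
          show s (x0.1, i) = s (x0.1, j)
          rw [h3, h3, h5]
        rw [Multiset.le_iff_subset (Multiset.Nodup.map hai Finset.univ.nodup)]
        intro z hz
        obtain ⟨i, _, rfl⟩ := Multiset.mem_map.mp hz
        exact hbw _

end Pool.Agent.H856.WD.ActProof

namespace Pool.Agent.H856.WD

theorem act_main : S_ACT := ActProof.act_main

end Pool.Agent.H856.WD
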