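import Pool.Agent.H856.WD.Defs

/-!
# CLO: Tate tensors lie in every system of classes (helper800, after helper980's file for WC)
-/

set_option autoImplicit false

namespace Pool.Agent.H856.WD

namespace Clo

open Finset

variable {T : Type} {N : ℕ}

/-- basis tensors -/
def bt [DecidableEq T] {n : ℕ} (a : Fin n → T × Fin N) : Tens T N n :=
  fun x => if x = a then 1 else 0

theorem tens_eq [Fintype T] [DecidableEq T] {n : ℕ} (S : Tens T N n) : S = ∑ a, S a • bt a := by
  funext x
  simp only [Finset.sum_apply, Pi.smul_apply, bt, smul_eq_mul]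
  rw [Finset.sum_eq_single x]
  · simp
  · intro a _ ha
    rw [if_neg (fun h => ha h.symm), mul_zero]
  · intro h
    exact absurd (Finset.mem_univ _) h

theorem mem_of_bt [Fintype T] [DecidableEq T] {A : ∀ n, Submodule ℂ (Tens T N n)} {n : ℕ}
    (S : Tens T N n) (h : ∀ a, S a ≠ 0 → bt a ∈ A n) : S ∈ A n := by
  rw [tens_eq S]
  refine Submodule.sum_mem _ fun a _ => ?_
  by_cases h0 : S a = 0
  · rw [h0, zero_smul]
    exact Submodule.zero_mem _
  · exact Submodule.smul_mem _ _ (h a h0)

/-- the multiset of the letters of a word -/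
def mu {ι : Type} {n : ℕ} (a : Fin n → ι) : Multiset ι := (univ : Finset (Fin n)).val.map a

theorem card_mu {ι : Type} {n : ℕ} (a : Fin n → ι) : (mu a).card = n := by
  unfold mu
  rw [Multiset.card_map]
  exact Finset.card_fin n

theorem ex_word {ι : Type} (α : Multiset ι) : ∃ (n : ℕ) (a : Fin n → ι), mu a = α := by
  induction α using Quotient.inductionOn with
  | h l =>
    refine ⟨l.length, l.get, ?_⟩
    unfold mu
    rw [Fin.univ_val_map, List.ofFn_get]
    rfl

theorem mu_append {ι : Type} {r r' : ℕ} (a : Fin r → ι) (a' : Fin r' → ι) :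
    mu (Fin.append a a') = mu a + mu a' := by
  unfold mu
  rw [Fin.univ_val_map, Fin.univ_val_map, Fin.univ_val_map, List.ofFn_fin_append,
    Multiset.coe_add]

theorem transport {α : Type} {I J : Type} [Fintype I] [Fintype J] (m : I → α) (m' : J → α)
    (h : (univ : Finset I).val.map m = (univ : Finset J).val.map m') :
    ∃ e : I ≃ J, ∀ i, m' (e i) = m i := by
  classical
  have h1 : ∀ a, Nonempty ({i // m i = a} ≃ {j // m' j = a}) := by
    intro a
    rw [← Fintype.card_eq, Fintype.card_subtype, Fintype.card_subtype]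
    have h2 := congrArg (Multiset.count a) h
    rw [Multiset.count_map, Multiset.count_map] at h2
    simp only [eq_comm (a := a)] at h2
    exact h2
  let e : ∀ a, {i // m i = a} ≃ {j // m' j = a} := fun a => (h1 a).some
  refine ⟨(Equiv.sigmaFiberEquiv m).symm.trans
    ((Equiv.sigmaCongrRight e).trans (Equiv.sigmaFiberEquiv m')), fun i => ?_⟩
  exact (e (m i) ⟨i, rfl⟩).2

/-- all the basis tensors with these letters are in the system -/
def P [DecidableEq T] (A : ∀ n, Submodule ℂ (Tens T N n)) (w : Multiset (T × Fin N)) : Prop :=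
  ∀ (n : ℕ) (a : Fin n → T × Fin N), mu a = w → bt a ∈ A n

section sys
variable [Fintype T] [DecidableEq T] {q : ℂ} {Γ : T × Fin N → ℂ}
  {A : ∀ n, Submodule ℂ (Tens T N n)}

theorem P_of (hA : IsCycleSystem q Γ A) {n : ℕ} {a : Fin n → T × Fin N}
    (h : bt a ∈ A n) : P A (mu a) := by
  intro n' a' ha
  have hr : n' = n := by
    have := congrArg Multiset.card ha
    rwa [card_mu, card_mu] at this
  subst hr
  obtain ⟨σ, hσ⟩ := transport a a' ha.symm
  have h1 := hA.perm (bt a) σ h
  have h2 : (fun x => bt a (x ∘ σ)) = bt a' := by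
    funext x
    unfold bt
    have e1 : (x ∘ σ = a) ↔ x = a' := by
      constructor
      · intro hx
        funext i
        have h3 := congrFun hx (σ.symm i)
        rw [Function.comp_apply, Equiv.apply_symm_apply] at h3
        rw [h3, ← hσ, Equiv.apply_symm_apply]
      · intro hx
        funext i
        rw [Function.comp_apply, hx, hσ]
    simp only [e1]
  rw [← h2]
  exact h1

theorem P_add (hA : IsCycleSystem q Γ A) {α α' : Multiset (T × Fin N)} (h : P A α)
    (h' : P A α') : P A (α + α') := by
  obtain ⟨r, a, rfl⟩ := ex_word α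
  obtain ⟨r', a', rfl⟩ := ex_word α'
  have h1 := hA.prod _ _ (h r a rfl) (h' r' a' rfl)
  have h2 : (fun (x : Fin (r + r') → T × Fin N) =>
      bt a (fun i => x (Fin.castAdd r' i)) * bt a' (fun i => x (Fin.natAdd r i))) =
      bt (Fin.append a a') := by
    funext x
    unfold bt
    have e1 : x = Fin.append a a' ↔ (fun i => x (Fin.castAdd r' i)) = a ∧
          (fun i => x (Fin.natAdd r i)) = a' := by
      constructor
      · rintro rfl
        constructor
        · funext i
          exact Fin.append_left a a' i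
        · funext i
          exact Fin.append_right a a' i
      · rintro ⟨rfl, rfl⟩
        funext i
        refine Fin.addCases (fun j => ?_) (fun j => ?_) i
        · rw [Fin.append_left]
        · rw [Fin.append_right]
    by_cases h3 : (fun i => x (Fin.castAdd r' i)) = a
    · by_cases h4 : (fun i => x (Fin.natAdd r i)) = a'
      · rw [if_pos h3, if_pos h4, if_pos (e1.2 ⟨h3, h4⟩), mul_one]
      · rw [if_neg h4, if_neg (fun h5 => h4 (e1.1 h5).2), mul_zero]
    · rw [if_neg h3, if_neg (fun h5 => h3 (e1.1 h5).1), zero_mul]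
  rw [h2] at h1
  have h3 := P_of hA h1
  rwa [mu_append] at h3

theorem P_zero (hA : IsCycleSystem q Γ A) : P A 0 := by
  intro n a ha
  have hn : n = 0 := by
    have := congrArg Multiset.card ha
    rwa [card_mu, Multiset.card_zero] at this
  subst hn
  have h1 : bt a = (fun _ => 1 : Tens T N 0) := by
    funext x
    unfold bt
    rw [if_pos]
    funext i
    exact i.elim0
  rw [h1]
  exact hA.unit

omit [Fintype T] [DecidableEq T] in
theorem prod_mu {n : ℕ} (a : Fin n → T × Fin N) : ((mu a).map Γ).prod = ∏ i, Γ (a i) := by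
  unfold mu
  rw [Multiset.map_map]
  rfl

theorem P_dual (hA : IsCycleSystem q Γ A) {x y : T × Fin N} (h : Dual q Γ x y) :
    P A {x, y} := by
  obtain ⟨m, hm, h⟩ := h
  intro n a ha
  have hn : n = 2 := by
    have := congrArg Multiset.card ha
    rwa [card_mu, Multiset.card_pair] at this
  subst hn
  refine hA.tate _ ⟨m, 1, hm, rfl, fun z hz => ?_⟩
  have h1 : z = a := by
    by_contra hcon
    unfold bt at hz
    rw [if_neg hcon] at hz
    exact hz rfl
  rw [h1, ← prod_mu, ha]
  simp only [Multiset.insert_eq_cons, Multiset.map_cons, Multiset.map_singleton,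
    Multiset.prod_cons, Multiset.prod_singleton]
  rw [h, one_mul]

/-- replacement of a letter -/
theorem P_eqv (hA : IsCycleSystem q Γ A) {x y : T × Fin N} {w : Multiset (T × Fin N)}
    (h : Eqv Γ x y) (hP : P A (y ::ₘ w)) : P A (x ::ₘ w) := by
  obtain ⟨m, hm, h⟩ := h
  obtain ⟨n, b, rfl⟩ := ex_word w
  have e0 : ∀ u : T × Fin N, mu (Fin.append (fun _ : Fin 1 => u) b) = u ::ₘ mu b := by
    intro u
    rw [mu_append]
    have : mu (fun _ : Fin 1 => u) = {u} := by
      unfold mu
      simp
    rw [this, Multiset.singleton_add]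
  have h1 := hP (1 + n) (Fin.append (fun _ : Fin 1 => y) b) (e0 y)
  have h2 := hA.endo (fun u v => if u = x ∧ v = y then 1 else 0) m hm (by
    intro u v huv
    have h3 : u = x ∧ v = y := by
      by_contra hcon
      rw [if_neg hcon] at huv
      exact huv rfl
    rw [h3.1, h3.2, h]) _ (Fin.castAdd n 0) h1
  have h3 : (fun a : Fin (1 + n) → T × Fin N => ∑ v, (if a (Fin.castAdd n 0) = x ∧ v = y then (1 : ℂ) else 0) *
      bt (Fin.append (fun _ : Fin 1 => y) b) (Function.update a (Fin.castAdd n 0) v)) =
      bt (Fin.append (fun _ : Fin 1 => x) b) := by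
    funext a
    rw [Finset.sum_eq_single y]
    · have e1 : a = Fin.append (fun _ : Fin 1 => x) b ↔ a (Fin.castAdd n 0) = x ∧
          Function.update a (Fin.castAdd n 0) y = Fin.append (fun _ : Fin 1 => y) b := by
        constructor
        · rintro rfl
          refine ⟨Fin.append_left _ _ _, ?_⟩
          funext i
          refine Fin.addCases (fun j => ?_) (fun j => ?_) i
          · have hj : j = 0 := Subsingleton.elim _ _
            rw [hj, Function.update_self, Fin.append_left]
          · rw [Function.update_of_ne, Fin.append_right, Fin.append_right]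
            intro h4
            have h5 := congrArg Fin.val h4
            simp at h5
        · rintro ⟨h4, h5⟩
          funext i
          have h6 := congrFun h5 i
          revert h6
          refine Fin.addCases (fun j => ?_) (fun j => ?_) i
          · intro _
            have hj : j = 0 := Subsingleton.elim _ _
            rw [hj, h4, Fin.append_left]
          · intro h6
            rw [Function.update_of_ne, Fin.append_right] at h6
            · rw [h6, Fin.append_right]
            · intro h4
              have h5 := congrArg Fin.val h4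
              simp at h5
      unfold bt
      by_cases h4 : a (Fin.castAdd n 0) = x
      · rw [if_pos ⟨h4, rfl⟩, one_mul]
        by_cases h5 : Function.update a (Fin.castAdd n 0) y = Fin.append (fun _ : Fin 1 => y) b
        · rw [if_pos h5, if_pos (e1.2 ⟨h4, h5⟩)]
        · rw [if_neg h5, if_neg (fun h6 => h5 (e1.1 h6).2)]
      · rw [if_neg (fun h5 => h4 h5.1), zero_mul, if_neg (fun h6 => h4 (e1.1 h6).1)]
    · intro v _ hv
      rw [if_neg (fun h4 => hv h4.2), zero_mul]
    · intro h4
      exact absurd (Finset.mem_univ _) h4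
  rw [h3] at h2
  have h4 := P_of hA h2
  rwa [e0] at h4

omit [Fintype T] [DecidableEq T] in
theorem eqv_ind {F : Multiset (T × Fin N) → Prop}
    (hF : ∀ x y w, Eqv Γ x y → F (y ::ₘ w) → F (x ::ₘ w)) {κ : Type} (a b : κ → T × Fin N)
    (hab : ∀ i, Eqv Γ (a i) (b i)) (s : Multiset κ) :
    ∀ w, F (s.map b + w) → F (s.map a + w) := by
  induction s using Multiset.induction_on with
  | empty =>
    intro w h
    exact h
  | cons i s ih =>
    intro w h
    rw [Multiset.map_cons, Multiset.cons_add] at h ⊢
    have h1 := hF _ _ _ (hab i) h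
    rw [← Multiset.add_cons] at h1 ⊢
    exact ih _ h1

/-- the components of the tensors of the system are in the system -/
theorem proj1 (hA : IsCycleSystem q Γ A) {n : ℕ} {S : Tens T N n} (hS : S ∈ A n)
    (w : Fin n → T × Fin N) (I : Finset (Fin n)) :
    (fun a => if (∀ i ∈ I, a i = w i) then S a else 0) ∈ A n := by
  induction I using Finset.induction_on with
  | empty =>
    have h1 : (fun a => if (∀ i ∈ (∅ : Finset (Fin n)), a i = w i) then S a else 0) = S := by
      funext a
      rw [if_pos]
      intro i hi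
      exact absurd hi (Finset.notMem_empty i)
    rw [h1]
    exact hS
  | insert i I hi ih =>
    have h := hA.endo (fun u v => if u = w i ∧ v = w i then 1 else 0) 1 one_pos (by
      intro u v huv
      have h3 : u = w i ∧ v = w i := by
        by_contra hcon
        rw [if_neg hcon] at huv
        exact huv rfl
      rw [h3.1, h3.2]) _ i ih
    have e : (fun a : Fin n → T × Fin N => ∑ v, (if a i = w i ∧ v = w i then (1 : ℂ) else 0) *
        (fun a => if (∀ i ∈ I, a i = w i) then S a else 0) (Function.update a i v)) =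
        (fun a => if (∀ j ∈ insert i I, a j = w j) then S a else 0) := by
      funext a
      rw [Finset.sum_eq_single (w i)]
      · by_cases h1 : a i = w i
        · rw [if_pos ⟨h1, rfl⟩, one_mul, ← h1, Function.update_eq_self]
          dsimp only
          by_cases h2 : ∀ j ∈ I, a j = w j
          · rw [if_pos h2, if_pos]
            intro j hj
            rcases Finset.mem_insert.1 hj with rfl | hj
            · exact h1
            · exact h2 j hj
          · rw [if_neg h2, if_neg]
            intro h3
            exact h2 fun j hj => h3 j (Finset.mem_insert_of_mem hj)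
        · rw [if_neg (fun h2 => h1 h2.1), zero_mul, if_neg]
          intro h3
          exact h1 (h3 i (Finset.mem_insert_self i I))
      · intro t _ ht
        rw [if_neg (fun h2 => ht h2.2), zero_mul]
      · intro h1
        exact absurd (Finset.mem_univ _) h1
    rw [e] at h
    exact h

theorem comp_mem (hA : IsCycleSystem q Γ A) {n : ℕ} {S : Tens T N n} (hS : S ∈ A n)
    (w : Fin n → T × Fin N) (h : S w ≠ 0) : bt w ∈ A n := by
  have h1 := proj1 hA hS w univ
  have h2 : (fun a => if (∀ i ∈ (univ : Finset (Fin n)), a i = w i) then S a else 0) =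
      S w • bt w := by
    funext a
    simp only [Pi.smul_apply, smul_eq_mul]
    unfold bt
    by_cases ha : a = w
    · rw [if_pos (fun i _ => congrFun ha i), if_pos ha, ha, mul_one]
    · rw [if_neg ha, mul_zero, if_neg]
      intro h4
      exact ha (funext fun i => h4 i (Finset.mem_univ i))
  rw [h2] at h1
  exact (Submodule.smul_mem_iff _ h).1 h1

omit [Fintype T] in
theorem det_one (t : T) : detT t (fun i : Fin N => (t, i)) = 1 := by
  unfold detT
  rw [if_pos (fun _ => rfl)]
  have h1 : (Matrix.of fun i j : Fin N => if i = j then (1 : ℂ) else 0) = 1 := by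
    ext i j
    rw [Matrix.of_apply, Matrix.one_apply]
  show Matrix.det (Matrix.of fun i j : Fin N => if i = j then (1 : ℂ) else 0) = 1
  rw [h1, Matrix.det_one]

theorem P_weil (hA : IsCycleSystem q Γ A) (hN : Even N) (t : T) :
    P A (mu fun i : Fin N => (t, i)) :=
  P_of hA (comp_mem hA (hA.weil hN t) (fun i => (t, i)) (by rw [det_one]; exact one_ne_zero))

theorem P_weil₂ (hA : IsCycleSystem q Γ A) (t t' : T) :
    P A ((mu fun i : Fin N => (t, i)) + mu fun i : Fin N => (t', i)) := by
  have h1 := comp_mem hA (hA.weil₂ t t') (Fin.append (fun i => (t, i)) (fun i => (t', i)))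
    (by
      simp only [Fin.append_left, Fin.append_right]
      rw [det_one, det_one, one_mul]
      exact one_ne_zero)
  have h2 := P_of hA h1
  rwa [mu_append] at h2

theorem P_tup (hA : IsCycleSystem q Γ A) (hN : Even N) {t : T} {a : Fin N → T × Fin N}
    (ha : ∀ i, Eqv Γ (a i) (t, i)) : P A (Multiset.map a Finset.univ.val) := by
  have h1 := eqv_ind (F := P A) (fun x y w h h' => P_eqv hA h h') a (fun i => (t, i)) ha
    Finset.univ.val 0
  rw [add_zero, add_zero] at h1
  exact h1 (P_weil hA hN t)

theorem P_tup2 (hA : IsCycleSystem q Γ A) {t t' : T} {a a' : Fin N → T × Fin N}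
    (ha : ∀ i, Eqv Γ (a i) (t, i)) (ha' : ∀ i, Eqv Γ (a' i) (t', i)) :
    P A (Multiset.map a Finset.univ.val + Multiset.map a' Finset.univ.val) := by
  have h1 := eqv_ind (F := P A) (fun x y w h h' => P_eqv hA h h') a (fun i => (t, i)) ha
    Finset.univ.val (mu fun i : Fin N => (t', i)) (P_weil₂ hA t t')
  rw [add_comm] at h1
  have h2 := eqv_ind (F := P A) (fun x y w h h' => P_eqv hA h h') a' (fun i => (t', i)) ha'
    Finset.univ.val _ h1
  rwa [add_comm]

omit [Fintype T] [DecidableEq T] in
theorem Rel_eqv {x y : T × Fin N} {w : Multiset (T × Fin N)} (h : Eqv Γ x y)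
    (hR : RelW q Γ (y ::ₘ w)) : RelW q Γ (x ::ₘ w) := by
  obtain ⟨m', hm', h⟩ := h
  obtain ⟨m, hm, hR⟩ := hR
  refine ⟨m * m', Nat.mul_pos hm hm', ?_⟩
  rw [Multiset.map_cons, Multiset.prod_cons, Multiset.card_cons] at hR ⊢
  have h1 : (Γ x * (w.map Γ).prod) ^ (2 * (m * m')) = ((Γ y * (w.map Γ).prod) ^ (2 * m)) ^ m' := by
    have h2 : Γ x ^ (2 * (m * m')) = Γ y ^ (2 * (m * m')) := by
      rw [show 2 * (m * m') = m' * (2 * m) by ring, pow_mul, h, ← pow_mul]
    rw [mul_pow, h2, ← mul_pow, ← pow_mul]
    congr 1
    ring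
  rw [h1, hR, ← pow_mul]
  congr 1
  ring

omit [Fintype T] [DecidableEq T] in
theorem Rel_cancel (hq : q ≠ 0) {W w : Multiset (T × Fin N)} (h : RelW q Γ (W + w))
    (hW : RelW q Γ W) : RelW q Γ w := by
  obtain ⟨m, hm, h⟩ := h
  obtain ⟨m', hm', hW⟩ := hW
  refine ⟨m * m', Nat.mul_pos hm hm', ?_⟩
  rw [Multiset.map_add, Multiset.prod_add, Multiset.card_add] at h
  have h1 : ((W.map Γ).prod * (w.map Γ).prod) ^ (2 * (m * m')) = q ^ (m * m' * (W.card + w.card)) := by
    rw [show 2 * (m * m') = (2 * m) * m' by ring, pow_mul, h, ← pow_mul]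
    congr 1
    ring
  have h2 : (W.map Γ).prod ^ (2 * (m * m')) = q ^ (m * m' * W.card) := by
    rw [show 2 * (m * m') = (2 * m') * m by ring, pow_mul, hW, ← pow_mul]
    congr 1
    ring
  rw [mul_pow, h2, mul_add, pow_add] at h1
  exact mul_left_cancel₀ (pow_ne_zero _ hq) h1

omit [Fintype T] [DecidableEq T] in
theorem Rel_dual {x y : T × Fin N} (h : Dual q Γ x y) : RelW q Γ {x, y} := by
  obtain ⟨m, hm, h⟩ := h
  refine ⟨m, hm, ?_⟩
  simp only [Multiset.insert_eq_cons, Multiset.map_cons, Multiset.map_singleton,
    Multiset.prod_cons, Multiset.prod_singleton, Multiset.card_cons, Multiset.card_singleton]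
  rw [mul_comm 2 m, pow_mul, h, ← pow_mul]

omit [Fintype T] [DecidableEq T] in
theorem Rel_tup (hD : DetRel q Γ) {t : T} {a : Fin N → T × Fin N}
    (ha : ∀ i, Eqv Γ (a i) (t, i)) : RelW q Γ (Multiset.map a Finset.univ.val) := by
  classical
  have h1 := eqv_ind (F := RelW q Γ) (fun x y w h h' => Rel_eqv h h') a (fun i => (t, i)) ha
    Finset.univ.val 0
  rw [add_zero, add_zero] at h1
  exact h1 (hD t)

theorem remove_pair (hA : IsCycleSystem q Γ A) (hq : q ≠ 0) {w : Multiset (T × Fin N)}
    (hR : RelW q Γ w) (hev : Even w.card)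
    (IH : ∀ w' : Multiset (T × Fin N), w'.card < w.card → RelW q Γ w' → Even w'.card → P A w')
    {x y : T × Fin N} (hle : {x, y} ≤ w) (hd : Dual q Γ x y) : P A w := by
  obtain ⟨w1, rfl⟩ := Multiset.le_iff_exists_add.1 hle
  have hc : ({x, y} + w1 : Multiset (T × Fin N)).card = 2 + w1.card := by
    rw [Multiset.card_add, Multiset.card_pair]
  rw [hc] at hev IH
  refine P_add hA (P_dual hA hd) (IH w1 (by omega) (Rel_cancel hq hR (Rel_dual hd)) ?_)
  exact (Nat.even_add.1 hev).1 even_two

omit [Fintype T] [DecidableEq T] in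
theorem card_tup (a : Fin N → T × Fin N) : (Multiset.map a Finset.univ.val).card = N := by
  rw [Multiset.card_map]
  exact Finset.card_fin N

theorem P_main (hA : IsCycleSystem q Γ A) (hN : 0 < N) (hq : q ≠ 0) (hD : DetRel q Γ)
    (hC : CaseA q Γ ∨ CaseB q Γ) (k : ℕ) : ∀ w : Multiset (T × Fin N), w.card = k →
      RelW q Γ w → Even w.card → P A w := by
  induction k using Nat.strong_induction_on with
  | _ k ih =>
    intro w hk hR hev
    have IH : ∀ w' : Multiset (T × Fin N), w'.card < w.card → RelW q Γ w' → Even w'.card → P A w' :=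
      fun w' h1 h2 h3 => ih w'.card (by omega) w' rfl h2 h3
    by_cases h0 : w = 0
    · rw [h0]
      exact P_zero hA
    have hpos : 0 < w.card := Multiset.card_pos.2 h0
    by_cases hp : ∃ x y, {x, y} ≤ w ∧ Dual q Γ x y
    · obtain ⟨x, y, hle, hd⟩ := hp
      exact remove_pair hA hq hR hev IH hle hd
    rcases hC with hC | hC
    · exfalso
      refine hp (hC w hR ?_)
      obtain ⟨r, hr⟩ := hev
      omega
    · rcases hC w hR h0 with h1 | ⟨t, a, ha, hle⟩
      · exact absurd h1 hp
      · obtain ⟨w1, rfl⟩ := Multiset.le_iff_exists_add.1 hle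
        have hR1 := Rel_cancel hq hR (Rel_tup hD ha)
        have hc : (Multiset.map a Finset.univ.val + w1).card = N + w1.card := by
          rw [Multiset.card_add, card_tup]
        rw [hc] at hev IH
        rcases Nat.even_or_odd N with hNe | hNo
        · exact P_add hA (P_tup hA hNe ha) (IH w1 (by omega) hR1 ((Nat.even_add.1 hev).1 hNe))
        · have h2 : w1 ≠ 0 := by
            rintro rfl
            rw [Multiset.card_zero, add_zero] at hev
            exact (Nat.not_even_iff_odd.2 hNo) hev
          rcases hC w1 hR1 h2 with ⟨x, y, hle', hd⟩ | ⟨t', a', ha', hle'⟩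
          · exact absurd ⟨x, y, hle'.trans (Multiset.le_add_left _ _), hd⟩ hp
          · obtain ⟨w2, rfl⟩ := Multiset.le_iff_exists_add.1 hle'
            have hR2 := Rel_cancel hq hR1 (Rel_tup hD ha')
            rw [Multiset.card_add, card_tup, ← add_assoc] at hev IH
            rw [← add_assoc]
            refine P_add hA (P_tup2 hA ha ha') (IH w2 (by omega) hR2 ?_)
            exact (Nat.even_add.1 hev).1 (⟨N, rfl⟩ : Even (N + N))

end sys

end Clo

open Clo in
/-- CLO -/
theorem clo : S_CLO := by
  intro T _ _ N q Γ A hN hq hΓ hA hD hC n S hS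
  obtain ⟨m, c, hm, hc, h⟩ := hS
  apply mem_of_bt
  intro a ha
  have h1 := h a ha
  refine P_main hA hN hq hD hC n (mu a) (card_mu a) ⟨m, hm, ?_⟩ ?_ n a rfl
  · rw [prod_mu, card_mu, mul_comm 2 m, pow_mul, h1, ← pow_mul, hc]
    congr 1
    ring
  · rw [card_mu, hc]
    exact even_two_mul c

end Pool.Agent.H856.WD
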