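import Pool.Agent.H856.WD.Glue

/-! # From the place above `p` to the relations between the eigenvalues (proof) -/

set_option autoImplicit false

open Polynomial

namespace Pool.Agent.H856.WD

section val

variable {K : Type} [Field K] (v : K → ℝ)

theorem gv_one (hv : ∀ x y, x ≠ 0 → y ≠ 0 → v (x * y) = v x + v y) : v 1 = 0 := by
  have := hv 1 1 one_ne_zero one_ne_zero
  rw [mul_one] at this
  linarith

theorem gv_pow (hv : ∀ x y, x ≠ 0 → y ≠ 0 → v (x * y) = v x + v y) (x : K) (hx : x ≠ 0) (n : ℕ) :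
    v (x ^ n) = n * v x := by
  induction n with
  | zero => rw [pow_zero, gv_one v hv]; simp
  | succ n ih =>
    rw [pow_succ, hv _ _ (pow_ne_zero _ hx) hx, ih]
    push_cast
    ring

theorem gv_div (hv : ∀ x y, x ≠ 0 → y ≠ 0 → v (x * y) = v x + v y) (x y : K) (hx : x ≠ 0)
    (hy : y ≠ 0) : v (x / y) = v x - v y := by
  have := hv (x / y) y (div_ne_zero hx hy) hy
  rw [div_mul_cancel₀ _ hy] at this
  linarith

theorem gv_ne {ι : Type} (f : ι → K) (hf : ∀ x, f x ≠ 0) (w : Multiset ι) : (w.map f).prod ≠ 0 := by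
  intro h0
  rw [Multiset.prod_eq_zero_iff] at h0
  obtain ⟨x, _, hx⟩ := Multiset.mem_map.1 h0
  exact hf x hx

theorem gv_mprod (hv : ∀ x y, x ≠ 0 → y ≠ 0 → v (x * y) = v x + v y) {ι : Type} (f : ι → K)
    (hf : ∀ x, f x ≠ 0) (w : Multiset ι) :
    v ((w.map f).prod) = (w.map fun x => v (f x)).sum := by
  induction w using Multiset.induction_on with
  | empty => simpa using gv_one v hv
  | cons a w ih =>
    rw [Multiset.map_cons, Multiset.prod_cons, Multiset.map_cons, Multiset.sum_cons,
      hv _ _ (hf a) (gv_ne f hf w), ih]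

end val

theorem gnormal (k : Type) [Field k] :
    ∃ (A : Algebra k (AlgebraicClosure k)), @Normal k (AlgebraicClosure k) _ _ A :=
  ⟨AlgebraicClosure.instAlgebra k, IsAlgClosure.normal _ _⟩

/-- complex conjugation on a normal extension of `ℚ` -/
theorem gconj {K : Type} [Field K] (A : Algebra ℚ K) (hN : @Normal ℚ K _ _ A) (j : K →+* ℂ) :
    ∃ c : K ≃+* K, ∀ x, j (c x) = starRingEnd ℂ (j x) := by
  let _ : Algebra K ℂ := j.toAlgebra
  have _ : IsScalarTower ℚ K ℂ := IsScalarTower.of_algebraMap_eq' (Subsingleton.elim _ _)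
  let χ : ℂ ≃ₐ[ℚ] ℂ := Complex.conjAe.restrictScalars ℚ
  refine ⟨(χ.restrictNormal K).toRingEquiv, fun x => ?_⟩
  exact AlgEquiv.restrictNormal_commutes χ K x

theorem two_le {ι : Type} (w : Multiset ι) (h : 2 ≤ w.card) : ∃ x y, {x, y} ≤ w := by
  obtain ⟨x, hx⟩ := Multiset.card_pos_iff_exists_mem.1 (by omega : 0 < w.card)
  obtain ⟨w', rfl⟩ := Multiset.exists_cons_of_mem hx
  rw [Multiset.card_cons] at h
  obtain ⟨y, hy⟩ := Multiset.card_pos_iff_exists_mem.1 (by omega : 0 < w'.card)
  obtain ⟨w'', rfl⟩ := Multiset.exists_cons_of_mem hy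
  refine ⟨x, y, ?_⟩
  rw [Multiset.insert_eq_cons, Multiset.cons_le_cons_iff, Multiset.singleton_le]
  exact Multiset.mem_cons_self y w''

/-- a symmetric set of slopes with at most three elements -/
theorem slopes (N : ℕ) (hN : 1 ≤ N) (hN3 : N ≤ 3) (f : Fin N → ℝ)
    (hE : Multiset.map (fun i => -f i) Finset.univ.val = Multiset.map f Finset.univ.val)
    (hne : ¬ ∀ i, f i = 0) : Function.Injective f ∧ (N = 2 ∨ N = 3) := by
  have hsum : ∑ i, f i = 0 := by
    have h1 := congrArg Multiset.sum hE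
    have h2 : ∑ i, -f i = ∑ i, f i := h1
    rw [Finset.sum_neg_distrib] at h2
    linarith
  have hprod : ∏ i, -f i = ∏ i, f i := congrArg Multiset.prod hE
  have hN' : N = 1 ∨ N = 2 ∨ N = 3 := by omega
  rcases hN' with rfl | rfl | rfl
  · exfalso
    apply hne
    intro i
    have h1 : i = 0 := Subsingleton.elim _ _
    rw [Fin.sum_univ_one] at hsum
    rw [h1, hsum]
  · refine ⟨?_, Or.inl rfl⟩
    rw [Fin.sum_univ_two] at hsum
    have key : f 0 ≠ f 1 := by
      intro h
      apply hne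
      intro i
      fin_cases i
      · show f 0 = 0
        linarith
      · show f 1 = 0
        linarith
    intro i k h
    fin_cases i <;> fin_cases k
    · rfl
    · exact absurd h key
    · exact absurd h.symm key
    · rfl
  · refine ⟨?_, Or.inr rfl⟩
    rw [Fin.sum_univ_three] at hsum
    rw [Fin.prod_univ_three, Fin.prod_univ_three] at hprod
    have h0 : f 0 * f 1 * f 2 = 0 := by nlinarith
    have hz : f 0 = 0 ∨ f 1 = 0 ∨ f 2 = 0 := by
      rcases mul_eq_zero.1 h0 with h | h
      · rcases mul_eq_zero.1 h with h | h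
        · exact Or.inl h
        · exact Or.inr (Or.inl h)
      · exact Or.inr (Or.inr h)
    have all : f 0 = 0 → f 1 = 0 → f 2 = 0 → False := by
      intro a b c
      apply hne
      intro i
      fin_cases i
      · exact a
      · exact b
      · exact c
    have k01 : f 0 ≠ f 1 := by
      intro h
      rcases hz with h' | h' | h'
      · exact all h' (by linarith) (by linarith)
      · exact all (by linarith) h' (by linarith)
      · exact all (by linarith) (by linarith) h'
    have k02 : f 0 ≠ f 2 := by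
      intro h
      rcases hz with h' | h' | h'
      · exact all h' (by linarith) (by linarith)
      · exact all (by linarith) h' (by linarith)
      · exact all (by linarith) (by linarith) h'
    have k12 : f 1 ≠ f 2 := by
      intro h
      rcases hz with h' | h' | h'
      · exact all h' (by linarith) (by linarith)
      · exact all (by linarith) h' (by linarith)
      · exact all (by linarith) (by linarith) h'
    intro i k h
    fin_cases i <;> fin_cases k
    · rfl
    · exact absurd h k01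
    · exact absurd h k02
    · exact absurd h.symm k01
    · rfl
    · exact absurd h k12
    · exact absurd h.symm k02
    · exact absurd h.symm k12
    · rfl

theorem groots {K : Type} [Field K] {N : ℕ} (f : Fin N → K) :
    (∏ i, (X - C (f i))).roots = Multiset.map f Finset.univ.val := by
  have h1 : ∏ i, (X - C (f i)) =
      ((Multiset.map f Finset.univ.val).map (fun a => X - C a)).prod := by
    rw [Multiset.map_map]
    rfl
  rw [h1, Polynomial.roots_multiset_prod_X_sub_C]

/-- GLU -/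
theorem glu : S_GLU := by
  intro hACT hPLA p _ a N ζ P γ j ha hN hN3 hζ hP hgal habs hint
  obtain ⟨v, hv, hd, hcrit⟩ := hPLA p ζ hζ
  have hp : p.Prime := Fact.out
  have _ : Fact (1 < p) := ⟨hp.one_lt⟩
  obtain ⟨Q, hQ⟩ : ∃ Q : AlgebraicClosure ℚ, Q = (p : AlgebraicClosure ℚ) ^ a := ⟨_, rfl⟩
  have hp0 : (p : AlgebraicClosure ℚ) ≠ 0 := Nat.cast_ne_zero.2 hp.ne_zero
  have hQ0 : Q ≠ 0 := by rw [hQ]; exact pow_ne_zero _ hp0
  have hpa : (0 : ℝ) < (p : ℝ) ^ a := pow_pos (by exact_mod_cast hp.pos) a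
  have hγ0 : ∀ x, γ x ≠ 0 := by
    intro x h
    have h1 := habs j x
    rw [h, map_zero, norm_zero] at h1
    rw [← h1] at hpa
    norm_num at hpa
  have hσQ : ∀ σ : AlgebraicClosure ℚ ≃+* AlgebraicClosure ℚ, σ Q = Q := by
    intro σ
    rw [hQ, map_pow, map_natCast]
  have hjQ : j Q = (p : ℂ) ^ a := by rw [hQ, map_pow, map_natCast]
  have hφQ : ∀ φ : AlgebraicClosure ℚ →+* ℂ, ‖φ Q‖ = (p : ℝ) ^ a := by
    intro φ
    rw [hQ, map_pow, map_natCast, norm_pow, Complex.norm_natCast]
  have hσ0 : ∀ (σ : AlgebraicClosure ℚ ≃+* AlgebraicClosure ℚ) x, σ (γ x) ≠ 0 := by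
    intro σ x h
    exact hγ0 x ((map_eq_zero σ).1 h)
  have crit : ∀ (z : AlgebraicClosure ℚ) (b : ℕ), z ≠ 0 →
      IsIntegral ℤ ((p : AlgebraicClosure ℚ) ^ b * z) →
      (∀ σ : AlgebraicClosure ℚ ≃+* AlgebraicClosure ℚ, σ ζ = ζ → v (σ z) = 0) →
      (∀ φ : AlgebraicClosure ℚ →+* ℂ, ‖φ z‖ ^ 2 = 1) → ∃ m : ℕ, 0 < m ∧ z ^ m = 1 := by
    intro z b h1 h2 h3 h4
    exact hcrit z b h1 h2 h3 fun φ =>
      (pow_eq_one_iff_of_nonneg (norm_nonneg _) two_ne_zero).1 (h4 φ)
  obtain ⟨Aq, hAq⟩ := gnormal ℚ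
  obtain ⟨c, hc⟩ := gconj Aq hAq j
  have hcγ : ∀ x, c (γ x) * γ x = Q := by
    intro x
    apply j.injective
    rw [map_mul, hc, hjQ, ← Complex.normSq_eq_conj_mul_self, Complex.normSq_eq_norm_sq, habs j x]
    push_cast
    rfl
  -- the criteria
  have cDual : ∀ x y, (∀ σ : AlgebraicClosure ℚ ≃+* AlgebraicClosure ℚ, σ ζ = ζ →
      v (σ (γ x)) + v (σ (γ y)) = v Q) → Dual ((p : ℂ) ^ a) (fun x => j (γ x)) x y := by
    intro x y h
    obtain ⟨m, hm, hz⟩ := crit (γ x * γ y / Q) a
      (div_ne_zero (mul_ne_zero (hγ0 x) (hγ0 y)) hQ0)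
      (by
        have h1 : (p : AlgebraicClosure ℚ) ^ a * (γ x * γ y / Q) = γ x * γ y := by
          rw [← hQ, mul_div_cancel₀ _ hQ0]
        rw [h1]
        exact (hint x).mul (hint y))
      (by
        intro σ hσ
        rw [map_div₀, map_mul, hσQ, gv_div v hv _ _ (mul_ne_zero (hσ0 σ x) (hσ0 σ y)) hQ0,
          hv _ _ (hσ0 σ x) (hσ0 σ y), h σ hσ, sub_self])
      (by
        intro φ
        rw [map_div₀, map_mul, norm_div, norm_mul, hφQ, div_pow, mul_pow, habs, habs]
        field_simp)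
    refine ⟨m, hm, ?_⟩
    rw [div_pow, div_eq_one_iff_eq (pow_ne_zero _ hQ0)] at hz
    have h2 := congrArg j hz
    rw [map_pow, map_mul, map_pow, hjQ] at h2
    exact h2
  have cEqv : ∀ x y, (∀ σ : AlgebraicClosure ℚ ≃+* AlgebraicClosure ℚ, σ ζ = ζ →
      v (σ (γ x)) = v (σ (γ y))) → Eqv (fun x => j (γ x)) x y := by
    intro x y h
    obtain ⟨m, hm, hz⟩ := crit (γ x / γ y) a (div_ne_zero (hγ0 x) (hγ0 y))
      (by
        have h1 : (p : AlgebraicClosure ℚ) ^ a * (γ x / γ y) = γ x * c (γ y) := by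
          rw [← hQ, ← hcγ y]
          have := hγ0 y
          field_simp
        rw [h1]
        refine (hint x).mul ?_
        exact (hint y).map (c : AlgebraicClosure ℚ →+* AlgebraicClosure ℚ).toIntAlgHom)
      (by
        intro σ hσ
        rw [map_div₀, gv_div v hv _ _ (hσ0 σ x) (hσ0 σ y), h σ hσ, sub_self])
      (by
        intro φ
        rw [map_div₀, norm_div, div_pow, habs, habs]
        field_simp)
    refine ⟨m, hm, ?_⟩
    rw [div_pow, div_eq_one_iff_eq (pow_ne_zero _ (hγ0 y))] at hz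
    have h2 := congrArg j hz
    rw [map_pow, map_pow] at h2
    exact h2
  -- the automorphisms permute the roots
  have key : ∀ (g : AlgebraicClosure ℚ ≃+* AlgebraicClosure ℚ) (u t t' : Ch p),
      g ζ = ζ ^ (u : ZMod p).val → (t' : ZMod p) = u * t →
      Multiset.map (fun i => g (γ (t, i))) Finset.univ.val =
        Multiset.map (fun i => γ (t', i)) Finset.univ.val := by
    intro g u t t' h1 h2
    have h3 := hgal g u t t' h1 h2
    rw [hP, hP, Polynomial.map_prod] at h3
    have h4 : ∏ i, (X - C (g (γ (t, i)))) = ∏ i, (X - C (γ (t', i))) := by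
      rw [← h3]
      refine Finset.prod_congr rfl fun i _ => ?_
      rw [Polynomial.map_sub, Polynomial.map_X, Polynomial.map_C]
      rfl
    have h5 := congrArg Polynomial.roots h4
    rw [groots (fun i => g (γ (t, i))), groots (fun i => γ (t', i))] at h5
    exact h5
  have keyG : ∀ (g : AlgebraicClosure ℚ ≃+* AlgebraicClosure ℚ), g ζ = ζ → ∀ t : Ch p,
      Multiset.map (fun i => g (γ (t, i))) Finset.univ.val =
        Multiset.map (fun i => γ (t, i)) Finset.univ.val := by
    intro g hg t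
    refine key g ⟨1, one_ne_zero⟩ t t ?_ ?_
    · show g ζ = ζ ^ (1 : ZMod p).val
      rw [ZMod.val_one, pow_one, hg]
    · show (t : ZMod p) = 1 * t
      rw [one_mul]
  -- the slopes
  obtain ⟨s, hs⟩ : ∃ s : Ch p × Fin N → ℝ, s = fun x => 2 * v (γ x) - v Q := ⟨_, rfl⟩
  have sG : ∀ (g : AlgebraicClosure ℚ ≃+* AlgebraicClosure ℚ), g ζ = ζ → ∀ t : Ch p,
      Multiset.map (fun i => 2 * v (g (γ (t, i))) - v Q) Finset.univ.val =
        Multiset.map (fun i => s (t, i)) Finset.univ.val := by
    intro g hg t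
    have h1 := congrArg (Multiset.map (fun z => 2 * v z - v Q)) (keyG g hg t)
    rw [Multiset.map_map, Multiset.map_map] at h1
    rw [hs]
    exact h1
  have conj1 : ∀ t t' : Ch p, ∃ (d : AlgebraicClosure ℚ ≃+* AlgebraicClosure ℚ) (u : Ch p),
      d ζ = ζ ^ (u : ZMod p).val ∧ (t' : ZMod p) = u * t ∧ ∀ x, v (d x) = v x := by
    intro t t'
    have hu : (t' : ZMod p) / t ≠ 0 := div_ne_zero t'.2 t.2
    obtain ⟨d, hd1, hd2⟩ := hd (Units.mk0 ((t' : ZMod p) / t) hu)
    refine ⟨d, ⟨(t' : ZMod p) / t, hu⟩, hd1, ?_, hd2⟩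
    show (t' : ZMod p) = (t' : ZMod p) / t * t
    rw [div_mul_cancel₀ _ t.2]
  have sD : ∀ t t' : Ch p, Multiset.map (fun i => s (t, i)) Finset.univ.val =
      Multiset.map (fun i => s (t', i)) Finset.univ.val := by
    intro t t'
    obtain ⟨d, u, hd1, hd2, hd3⟩ := conj1 t t'
    have h1 := congrArg (Multiset.map (fun z => 2 * v z - v Q)) (key d u t t' hd1 hd2)
    rw [Multiset.map_map, Multiset.map_map] at h1
    have h2 : Multiset.map (fun i => 2 * v (d (γ (t, i))) - v Q) Finset.univ.val =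
      Multiset.map (fun i => 2 * v (γ (t', i)) - v Q) Finset.univ.val := h1
    simp only [hd3] at h2
    rw [hs]
    exact h2
  -- the element `e`
  obtain ⟨d, hd1, hd2⟩ := hd (-1)
  obtain ⟨e, he⟩ : ∃ e : AlgebraicClosure ℚ ≃+* AlgebraicClosure ℚ, e = c.trans d := ⟨_, rfl⟩
  have hex : ∀ x, e x = d (c x) := by
    intro x
    rw [he]
    rfl
  have hζ0 : ζ ≠ 0 := hζ.ne_zero hp.ne_zero
  have hcζ : c ζ = ζ⁻¹ := by
    apply j.injective
    have h1 : (j ζ) ^ p = 1 := by rw [← map_pow, hζ.pow_eq_one, map_one]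
    have h2 : ‖j ζ‖ = 1 := Complex.norm_eq_one_of_pow_eq_one h1 hp.ne_zero
    rw [hc, map_inv₀, Complex.inv_eq_conj h2]
  have heζ : e ζ = ζ := by
    have h1 : ζ ^ ((-1 : (ZMod p)ˣ) : ZMod p).val = ζ⁻¹ := by
      apply eq_inv_of_mul_eq_one_left
      rw [← pow_succ]
      rw [hζ.pow_eq_one_iff_dvd, ← ZMod.natCast_eq_zero_iff]
      push_cast
      rw [ZMod.natCast_zmod_val]
      simp
    rw [hex, hcζ, map_inv₀, hd1, h1, inv_inv]
  have hev : ∀ x, v (e (γ x)) = v Q - v (γ x) := by
    intro x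
    have h1 : c (γ x) = Q / γ x := by
      rw [eq_div_iff (hγ0 x), hcγ x]
    rw [hex, hd2, h1, gv_div v hv _ _ hQ0 (hγ0 x)]
  have sE : ∀ t : Ch p, Multiset.map (fun i => -s (t, i)) Finset.univ.val =
      Multiset.map (fun i => s (t, i)) Finset.univ.val := by
    intro t
    rw [← sG e heζ t]
    refine Multiset.map_congr rfl fun i _ => ?_
    rw [hev, hs]
    ring
  have hsumG : ∀ (g : AlgebraicClosure ℚ ≃+* AlgebraicClosure ℚ), g ζ = ζ → ∀ t : Ch p,
      ∑ i, (2 * v (g (γ (t, i))) - v Q) = 0 := by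
    intro g hg t
    have h1 : ∑ i, -s (t, i) = ∑ i, s (t, i) := congrArg Multiset.sum (sE t)
    rw [Finset.sum_neg_distrib] at h1
    have h2 : ∑ i, (2 * v (g (γ (t, i))) - v Q) = ∑ i, s (t, i) :=
      congrArg Multiset.sum (sG g hg t)
    rw [h2]
    linarith
  -- the determinants
  have hdet : DetRel ((p : ℂ) ^ a) (fun x => j (γ x)) := by
    intro t
    have hpr : ∏ i, γ (t, i) ≠ 0 := Finset.prod_ne_zero_iff.2 fun i _ => hγ0 _
    obtain ⟨m, hm, hz⟩ := crit ((∏ i, γ (t, i)) ^ 2 / Q ^ N) (a * N)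
      (div_ne_zero (pow_ne_zero _ hpr) (pow_ne_zero _ hQ0))
      (by
        have h1 : (p : AlgebraicClosure ℚ) ^ (a * N) * ((∏ i, γ (t, i)) ^ 2 / Q ^ N) =
            (∏ i, γ (t, i)) ^ 2 := by
          rw [pow_mul, ← hQ, mul_div_cancel₀ _ (pow_ne_zero _ hQ0)]
        rw [h1]
        exact (IsIntegral.prod _ fun i _ => hint (t, i)).pow 2)
      (by
        intro σ hσ
        have h1 : ∏ i, σ (γ (t, i)) ≠ 0 := Finset.prod_ne_zero_iff.2 fun i _ => hσ0 σ _
        rw [map_div₀, map_pow, map_pow, hσQ, map_prod,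
          gv_div v hv _ _ (pow_ne_zero _ h1) (pow_ne_zero _ hQ0), gv_pow v hv _ h1,
          gv_pow v hv _ hQ0]
        have h2 : v (∏ i, σ (γ (t, i))) = ∑ i, v (σ (γ (t, i))) :=
          gv_mprod v hv (fun i => σ (γ (t, i))) (fun i => hσ0 σ _) Finset.univ.val
        have h3 := hsumG σ hσ t
        rw [Finset.sum_sub_distrib, ← Finset.mul_sum, Finset.sum_const, Finset.card_univ,
          Fintype.card_fin, nsmul_eq_mul] at h3
        rw [h2]
        push_cast
        exact h3)
      (by
        intro φ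
        rw [map_div₀, map_pow, map_pow, map_prod, norm_div, norm_pow, norm_pow, norm_prod, hφQ,
          div_pow, ← pow_mul, mul_comm 2 2, pow_mul, ← Finset.prod_pow]
        rw [Finset.prod_congr rfl fun i _ => habs φ (t, i), Finset.prod_const, Finset.card_univ,
          Fintype.card_fin]
        exact div_self (by positivity))
    refine ⟨m, hm, ?_⟩
    rw [div_pow, div_eq_one_iff_eq (pow_ne_zero _ (pow_ne_zero _ hQ0))] at hz
    have h2 := congrArg j hz
    rw [map_pow, map_pow, map_pow, map_pow, hjQ, map_prod] at h2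
    rw [Multiset.map_map, Multiset.card_map, Finset.card_val, Finset.card_univ, Fintype.card_fin,
      pow_mul, mul_comm m N, pow_mul _ N m]
    exact h2
  refine ⟨hdet, ?_⟩
  by_cases h0 : ∃ t, ∀ i, s (t, i) = 0
  · -- all slopes vanish
    obtain ⟨t0, ht0⟩ := h0
    have h1 : ∀ t i, s (t, i) = 0 := by
      intro t i
      have h2 : s (t, i) ∈ Multiset.map (fun i => s (t, i)) Finset.univ.val :=
        Multiset.mem_map.2 ⟨i, Finset.mem_univ_val i, rfl⟩
      rw [sD t t0] at h2
      obtain ⟨k, _, hk⟩ := Multiset.mem_map.1 h2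
      rw [← hk]
      exact ht0 k
    have h2 : ∀ (g : AlgebraicClosure ℚ ≃+* AlgebraicClosure ℚ), g ζ = ζ → ∀ x,
        2 * v (g (γ x)) = v Q := by
      intro g hg x
      obtain ⟨t, i⟩ := x
      have h3 : 2 * v (g (γ (t, i))) - v Q ∈
          Multiset.map (fun i => 2 * v (g (γ (t, i))) - v Q) Finset.univ.val :=
        Multiset.mem_map.2 ⟨i, Finset.mem_univ_val i, rfl⟩
      rw [sG g hg t] at h3
      obtain ⟨k, _, hk⟩ := Multiset.mem_map.1 h3
      rw [h1] at hk
      linarith
    left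
    intro w _ hw
    obtain ⟨x, y, hxy⟩ := two_le w hw
    refine ⟨x, y, hxy, cDual x y fun σ hσ => ?_⟩
    have h3 := h2 σ hσ x
    have h4 := h2 σ hσ y
    linarith
  · -- different slopes
    have hsl : ∀ t, Function.Injective (fun i => s (t, i)) ∧ (N = 2 ∨ N = 3) := by
      intro t
      exact slopes N hN hN3 (fun i => s (t, i)) (sE t) fun hc => h0 ⟨t, hc⟩
    have hinj := fun t => (hsl t).1
    have hN23 : N = 2 ∨ N = 3 := (hsl ⟨1, one_ne_zero⟩).2
    have uniq : ∀ x y : Ch p × Fin N, x.1 = y.1 → γ x = γ y → x = y := by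
      rintro ⟨t, i⟩ ⟨t', k⟩ h1 h2
      have h1' : t = t' := h1
      subst h1'
      have h3 : s (t, i) = s (t, k) := by rw [hs]; show 2 * v (γ (t, i)) - v Q = _; rw [h2]
      rw [hinj t h3]
    have ex : ∀ (g : AlgebraicClosure ℚ ≃+* AlgebraicClosure ℚ), g ζ = ζ →
        ∀ x : Ch p × Fin N, ∃ y : Ch p × Fin N, y.1 = x.1 ∧ γ y = g (γ x) := by
      rintro g hg ⟨t, i⟩
      have h3 : g (γ (t, i)) ∈ Multiset.map (fun i => g (γ (t, i))) Finset.univ.val :=
        Multiset.mem_map.2 ⟨i, Finset.mem_univ_val i, rfl⟩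
      rw [keyG g hg t] at h3
      obtain ⟨k, _, hk⟩ := Multiset.mem_map.1 h3
      exact ⟨(t, k), rfl, hk⟩
    choose F hF1 hF2 using ex
    let G : Subgroup (AlgebraicClosure ℚ ≃+* AlgebraicClosure ℚ) :=
      { carrier := {σ | σ ζ = ζ}
        mul_mem' := by
          intro σ τ hσ hτ
          show σ (τ ζ) = ζ
          have h1 : σ ζ = ζ := hσ
          have h2 : τ ζ = ζ := hτ
          rw [h2, h1]
        one_mem' := rfl
        inv_mem' := by
          intro σ hσ
          have h1 : σ ζ = ζ := hσ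
          show σ.symm ζ = ζ
          rw [RingEquiv.symm_apply_eq, h1] }
    let actI : MulAction G (Ch p × Fin N) :=
      { smul := fun g x => F g.1 g.2 x
        one_smul := by
          intro x
          refine uniq _ _ (hF1 _ _ _) ?_
          exact hF2 _ _ _
        mul_smul := by
          intro g h x
          refine uniq _ _ ?_ ?_
          · exact (hF1 _ _ _).trans ((hF1 _ _ _).trans (hF1 _ _ _)).symm
          · refine (hF2 _ _ _).trans ?_
            refine Eq.trans ?_ (hF2 _ _ _).symm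
            refine Eq.trans ?_ (congrArg g.1 (hF2 _ _ _).symm)
            rfl }
    obtain ⟨act, hact⟩ : ∃ act : G →* Equiv.Perm (Ch p × Fin N),
        ∀ g x, act g x = F g.1 g.2 x := ⟨MulAction.toPermHom G (Ch p × Fin N), fun g x => rfl⟩
    have hγact : ∀ (g : G) x, γ (act g x) = g.1 (γ x) := by
      intro g x
      rw [hact]
      exact hF2 _ _ _
    have hsact : ∀ (g : G) x, s (act g x) = 2 * v (g.1 (γ x)) - v Q := by
      intro g x
      rw [hs]
      show 2 * v (γ (act g x)) - v Q = _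
      rw [hγact]
    have relS : ∀ w : Multiset (Ch p × Fin N), RelW ((p : ℂ) ^ a) (fun x => j (γ x)) w →
        SRel act s w := by
      rintro w ⟨m, hm, hw⟩ g
      have h1 : ((w.map γ).prod) ^ (2 * m) = Q ^ (m * w.card) := by
        apply j.injective
        rw [map_pow, map_pow, hjQ, map_multiset_prod, Multiset.map_map]
        exact hw
      have h2 := congrArg (fun z => v (g.1 z)) h1
      simp only [map_pow, map_multiset_prod, Multiset.map_map, hσQ] at h2
      have h3 : v (((w.map fun x => g.1 (γ x)).prod) ^ (2 * m)) = v (Q ^ (m * w.card)) := h2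
      rw [gv_pow v hv _ (gv_ne (fun x => g.1 (γ x)) (fun x => hσ0 g.1 x) w), gv_pow v hv _ hQ0,
        gv_mprod v hv (fun x => g.1 (γ x)) (fun x => hσ0 g.1 x) w] at h3
      push_cast at h3
      have h4 : (m : ℝ) ≠ 0 := by exact_mod_cast hm.ne'
      have h5 : 2 * (w.map fun x => v (g.1 (γ x))).sum = w.card * v Q := by
        have h6 : (m : ℝ) * (2 * (w.map fun x => v (g.1 (γ x))).sum) =
            (m : ℝ) * (w.card * v Q) := by linarith
        exact mul_left_cancel₀ h4 h6
      have h7 : (w.map fun x => s (act g x)) = w.map fun x => 2 * v (g.1 (γ x)) - v Q :=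
        Multiset.map_congr rfl fun x _ => hsact g x
      rw [h7, Multiset.sum_map_sub, Multiset.sum_map_mul_left, Multiset.map_const',
        Multiset.sum_replicate, nsmul_eq_mul, h5, sub_self]
    have toDual : ∀ x y, (∀ g : G, s (act g x) + s (act g y) = 0) →
        Dual ((p : ℂ) ^ a) (fun x => j (γ x)) x y := by
      intro x y h
      refine cDual x y fun σ hσ => ?_
      have h1 := h ⟨σ, hσ⟩
      rw [hsact, hsact] at h1
      show v (σ (γ x)) + v (σ (γ y)) = v Q
      have h2 : 2 * v (σ (γ x)) - v Q + (2 * v (σ (γ y)) - v Q) = 0 := h1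
      linarith
    have hA := hACT G (Ch p) N act s ⟨e, heζ⟩ hN23
      (fun g x => by rw [hact]; exact hF1 _ _ _)
      (fun x => by
        rw [hsact]
        show 2 * v (e (γ x)) - v Q = -s x
        rw [hev, hs]
        ring)
      hinj
      (fun t t' => by
        ext r
        have h1 : ∀ t : Ch p, r ∈ Set.range (fun i => s (t, i)) ↔
            r ∈ Multiset.map (fun i => s (t, i)) Finset.univ.val := by
          intro t
          rw [Multiset.mem_map]
          constructor
          · rintro ⟨i, hi⟩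
            exact ⟨i, Finset.mem_univ_val i, hi⟩
          · rintro ⟨i, _, hi⟩
            exact ⟨i, hi⟩
        rw [h1 t, h1 t', sD t t'])
      (by
        rintro t t' ⟨i, hi⟩
        obtain ⟨d', u, hu1, hu2, _⟩ := conj1 t t'
        have h3 : d' (γ (t, i)) ∈ Multiset.map (fun i => d' (γ (t, i))) Finset.univ.val :=
          Multiset.mem_map.2 ⟨i, Finset.mem_univ_val i, rfl⟩
        rw [key d' u t t' hu1 hu2] at h3
        obtain ⟨k, _, hk⟩ := Multiset.mem_map.1 h3
        refine ⟨k, fun g => ?_⟩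
        refine uniq _ _ ?_ ?_
        · rw [hact]
          exact hF1 _ _ _
        · rw [hγact, hk]
          -- `d'⁻¹ g d'` fixes `ζ`
          obtain ⟨τ, hτ⟩ : ∃ τ : AlgebraicClosure ℚ ≃+* AlgebraicClosure ℚ,
              τ = (d'.trans g.1).trans d'.symm := ⟨_, rfl⟩
          have hτx : ∀ x, τ x = d'.symm (g.1 (d' x)) := by
            intro x
            rw [hτ]
            rfl
          have hgζ : g.1 ζ = ζ := g.2
          have hτζ : τ ζ = ζ := by
            rw [hτx, hu1, map_pow, hgζ, ← hu1, RingEquiv.symm_apply_apply]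
          have h4 := hγact ⟨τ, hτζ⟩ (t, i)
          rw [hi ⟨τ, hτζ⟩] at h4
          have h5 : γ (t, i) = τ (γ (t, i)) := h4
          rw [hτx] at h5
          have h6 := congrArg d' h5
          rw [RingEquiv.apply_symm_apply] at h6
          exact h6.symm)
    rcases hA with hA | hB
    · left
      intro w hw hcard
      obtain ⟨x, y, hle, hxy⟩ := hA w (relS w hw) hcard
      exact ⟨x, y, hle, toDual x y hxy⟩
    · right
      intro w hw hne
      rcases hB w (relS w hw) hne with ⟨x, y, hle, hxy⟩ | ⟨t, b, hb, hle⟩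
      · left
        exact ⟨x, y, hle, toDual x y hxy⟩
      · right
        refine ⟨t, b, fun i => cEqv _ _ fun σ hσ => ?_, hle⟩
        have h1 := hb i ⟨σ, hσ⟩
        rw [hsact, hsact] at h1
        have h2 : 2 * v (σ (γ (b i))) - v Q = 2 * v (σ (γ (t, i))) - v Q := h1
        linarith

end Pool.Agent.H856.WD
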