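import Mathlib

/-! # The combinatorial part: words with vanishing slopes (statement) -/

set_option autoImplicit false

namespace Pool.Agent.H856.WD

/-- the slopes of the letters of `w` sum up to zero, at all places -/
def SRel {G ι : Type} [Group G] (act : G →* Equiv.Perm ι) (s : ι → ℝ) (w : Multiset ι) : Prop :=
  ∀ g : G, (w.map fun x => s (act g x)).sum = 0

/-- ACT: a group `G` acts on `T × Fin N`, `N = 2` or `N = 3`, and preserves the sets `{t} × Fin N`; the
slopes `s` are different on each of them, the set of the slopes does not depend on `t`, an element `e`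
of `G` changes the signs of all slopes; and if `G` has a fixed point in one of the sets, then in all -/
def S_ACT : Prop :=
  ∀ (G T : Type) [Group G] [Fintype T] [DecidableEq T] (N : ℕ)
    (act : G →* Equiv.Perm (T × Fin N)) (s : T × Fin N → ℝ) (e : G), (N = 2 ∨ N = 3) →
    (∀ (g : G) (x : T × Fin N), (act g x).1 = x.1) →
    (∀ x : T × Fin N, s (act e x) = -s x) →
    (∀ t : T, Function.Injective fun i => s (t, i)) →
    (∀ t t' : T, Set.range (fun i => s (t, i)) = Set.range (fun i => s (t', i))) →
    (∀ t t' : T, (∃ i, ∀ g : G, act g (t, i) = (t, i)) → ∃ i, ∀ g : G, act g (t', i) = (t', i)) →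
    (∀ w : Multiset (T × Fin N), SRel act s w → 2 ≤ w.card →
      ∃ x y, {x, y} ≤ w ∧ ∀ g : G, s (act g x) + s (act g y) = 0) ∨
    (∀ w : Multiset (T × Fin N), SRel act s w → w ≠ 0 →
      (∃ x y, {x, y} ≤ w ∧ ∀ g : G, s (act g x) + s (act g y) = 0) ∨
      ∃ (t : T) (a : Fin N → T × Fin N), (∀ (i : Fin N) (g : G), s (act g (a i)) = s (act g (t, i))) ∧
        Multiset.map a Finset.univ.val ≤ w)

end Pool.Agent.H856.WD
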