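import Mathlib

/-! # The arithmetic part: a place above `p` (statement) -/

set_option autoImplicit false

namespace Pool.Agent.H856.WD

/-- PLA: a `p`-adic valuation `v` of the algebraic numbers. It is invariant under automorphisms which
induce any given automorphism of `ℚ(ζ)`; and a criterion for roots of unity -/
def S_PLA : Prop :=
  ∀ (p : ℕ) [Fact p.Prime] (ζ : AlgebraicClosure ℚ), IsPrimitiveRoot ζ p →
    ∃ v : AlgebraicClosure ℚ → ℝ,
      (∀ x y, x ≠ 0 → y ≠ 0 → v (x * y) = v x + v y) ∧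
      (∀ t : (ZMod p)ˣ, ∃ d : AlgebraicClosure ℚ ≃+* AlgebraicClosure ℚ,
        d ζ = ζ ^ (t : ZMod p).val ∧ ∀ x, v (d x) = v x) ∧
      (∀ (x : AlgebraicClosure ℚ) (a : ℕ), x ≠ 0 → IsIntegral ℤ ((p : AlgebraicClosure ℚ) ^ a * x) →
        (∀ σ : AlgebraicClosure ℚ ≃+* AlgebraicClosure ℚ, σ ζ = ζ → v (σ x) = 0) →
        (∀ φ : AlgebraicClosure ℚ →+* ℂ, ‖φ x‖ = 1) → ∃ m : ℕ, 0 < m ∧ x ^ m = 1)

end Pool.Agent.H856.WD
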