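import Pool.Agent.H856.WD.Defs
import Pool.Agent.H856.WD.Act
import Pool.Agent.H856.WD.Pla

/-! # From the place above `p` to the relations between the eigenvalues (statement) -/

set_option autoImplicit false

open Polynomial

namespace Pool.Agent.H856.WD

/-- the nontrivial characters of `ZMod p` -/
abbrev Ch (p : ℕ) : Type := {t : ZMod p // t ≠ 0}

/-- GLU: families of polynomials `P t` of degree `N ≤ 3` over `ℚ(ζ)`, permuted by the automorphisms, whose
roots `γ (t, i)` are integers with all absolute values `√q`, `q = p ^ a` -/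
def S_GLU : Prop :=
  S_ACT → S_PLA →
  ∀ (p : ℕ) [Fact p.Prime] (a N : ℕ) (ζ : AlgebraicClosure ℚ)
    (P : Ch p → (AlgebraicClosure ℚ)[X]) (γ : Ch p × Fin N → AlgebraicClosure ℚ)
    (j : AlgebraicClosure ℚ →+* ℂ),
    0 < a → 1 ≤ N → N ≤ 3 → IsPrimitiveRoot ζ p →
    (∀ t, P t = ∏ i, (X - C (γ (t, i)))) →
    (∀ (g : AlgebraicClosure ℚ ≃+* AlgebraicClosure ℚ) (u t t' : Ch p),
      g ζ = ζ ^ (u : ZMod p).val → (t' : ZMod p) = u * t → (P t).map (g : _ →+* _) = P t') →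
    (∀ (φ : AlgebraicClosure ℚ →+* ℂ) (x : Ch p × Fin N), ‖φ (γ x)‖ ^ 2 = (p : ℝ) ^ a) →
    (∀ x, IsIntegral ℤ (γ x)) →
    DetRel ((p : ℂ) ^ a) (fun x => j (γ x)) ∧
      (CaseA ((p : ℂ) ^ a) (fun x => j (γ x)) ∨ CaseB ((p : ℂ) ^ a) (fun x => j (γ x)))

end Pool.Agent.H856.WD
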