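import Pool.Agent.H856.WD.Pure
import Pool.Agent.H856.WD.Glue
import Pool.Agent.H856.WD.Clo

/-! # The L-functions of `ψ (f (x))` over the algebraic numbers -/

set_option autoImplicit false
set_option linter.all false
set_option linter.unusedSectionVars false

open Polynomial

namespace Pool.Agent.H856.WD

open Pool.Agent.H341R2.Sharp hiding lam lam_mul lam_one lam_pow
open Pool.Agent.H498R2.Kl Pool.Agent.H856.WC

section

variable {p : ℕ} [Fact p.Prime] {k : Type} [Field k] [Fintype k] [Algebra (ZMod p) k]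
  [DecidableEq k] {R : Type} [CommRing R]

/-- the coefficients -/
noncomputable def AO {ζ : R} (hζ : ζ ^ p = 1) (f : k[X]) (t : ZMod p) (n : ℕ) : R :=
  ∑ h ∈ Mon k n, chi hζ t (FF f h)

/-- the L-function -/
noncomputable def LO {ζ : R} (hζ : ζ ^ p = 1) (f : k[X]) (t : ZMod p) : R[X] :=
  ∑ n ∈ Finset.range f.natDegree, C (AO hζ f t n) * X ^ n

/-- the characteristic polynomial of the Frobenius -/
noncomputable def PO {ζ : R} (hζ : ζ ^ p = 1) (f : k[X]) (t : ZMod p) : R[X] :=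
  reflect (f.natDegree - 1) (LO hζ f t)

theorem coeff_LO {ζ : R} (hζ : ζ ^ p = 1) (f : k[X]) (t : ZMod p) (n : ℕ) :
    (LO hζ f t).coeff n = if n < f.natDegree then AO hζ f t n else 0 := by
  unfold LO
  rw [finset_sum_coeff]
  simp only [coeff_C_mul, coeff_X_pow]
  split_ifs with h
  · rw [Finset.sum_eq_single n]
    · simp
    · intro m _ hm
      rw [if_neg (Ne.symm hm), mul_zero]
    · intro hn
      exact absurd (Finset.mem_range.2 h) hn
  · rw [Finset.sum_eq_zero]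
    intro m hm
    rw [Finset.mem_range] at hm
    rw [if_neg (by omega), mul_zero]

theorem AO_zero {ζ : R} (hζ : ζ ^ p = 1) (f : k[X]) (t : ZMod p) : AO hζ f t 0 = 1 := by
  unfold AO
  rw [Mon_zero, Finset.sum_singleton, FF_one, AddChar.map_zero_eq_one]

theorem PO_monic [Nontrivial R] {ζ : R} (hζ : ζ ^ p = 1) {f : k[X]} (h0 : 0 < f.natDegree)
    (t : ZMod p) : (PO hζ f t).Monic ∧ (PO hζ f t).natDegree = f.natDegree - 1 := by
  have hc : (PO hζ f t).coeff (f.natDegree - 1) = 1 := by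
    unfold PO
    rw [coeff_reflect, revAt_le le_rfl, Nat.sub_self, coeff_LO, if_pos h0, AO_zero]
  have hle : (PO hζ f t).natDegree ≤ f.natDegree - 1 := by
    rw [natDegree_le_iff_coeff_eq_zero]
    intro i hi
    unfold PO
    rw [coeff_reflect, revAt_eq_self_of_lt hi, coeff_LO, if_neg (by omega)]
  have hm := monic_of_natDegree_le_of_coeff_eq_one _ hle hc
  refine ⟨hm, le_antisymm hle ?_⟩
  apply le_natDegree_of_ne_zero
  rw [hc]
  exact one_ne_zero

theorem PO_reverse [Nontrivial R] {ζ : R} (hζ : ζ ^ p = 1) {f : k[X]} (h0 : 0 < f.natDegree)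
    (t : ZMod p) : (PO hζ f t).reverse = LO hζ f t := by
  ext n
  rw [coeff_reverse, (PO_monic hζ h0 t).2]
  unfold PO
  rw [coeff_reflect, revAt_invol]

theorem AO_map {R' : Type} [CommRing R'] (φ : R →+* R') {ζ : R} (hζ : ζ ^ p = 1) {ζ' : R'}
    (hζ' : ζ' ^ p = 1) (h : φ ζ = ζ') (f : k[X]) (t : ZMod p) (n : ℕ) :
    φ (AO hζ f t n) = AO hζ' f t n := by
  unfold AO
  rw [map_sum]
  exact Finset.sum_congr rfl fun g _ => chi_map φ hζ hζ' h t _

theorem PO_map {R' : Type} [CommRing R'] (φ : R →+* R') {ζ : R} (hζ : ζ ^ p = 1) {ζ' : R'}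
    (hζ' : ζ' ^ p = 1) (h : φ ζ = ζ') (f : k[X]) (t : ZMod p) :
    (PO hζ f t).map φ = PO hζ' f t := by
  ext n
  unfold PO
  rw [coeff_map, coeff_reflect, coeff_reflect, coeff_LO, coeff_LO]
  split_ifs with h1
  · exact AO_map φ hζ hζ' h f t _
  · exact map_zero φ

/-- the action of the automorphisms on the characters -/
theorem chi_galois {ζ : R} (hζ : ζ ^ p = 1) (g : R →+* R) {u t t' : ZMod p}
    (hg : g ζ = ζ ^ u.val) (ht : t' = u * t) (x : k) : g (chi hζ t x) = chi hζ t' x := by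
  rw [chi_apply, chi_apply, map_pow, hg, ← pow_mul]
  have h1 := AddChar.zmodChar_apply' hζ (u.val * (t * Algebra.trace (ZMod p) k x).val)
  rw [← h1, AddChar.zmodChar_apply]
  congr 2
  push_cast
  rw [ZMod.natCast_zmod_val, ZMod.natCast_zmod_val, ht, mul_assoc]

theorem PO_galois {ζ : R} (hζ : ζ ^ p = 1) (g : R →+* R) {u t t' : ZMod p}
    (hg : g ζ = ζ ^ u.val) (ht : t' = u * t) (f : k[X]) : (PO hζ f t).map g = PO hζ f t' := by
  ext n
  unfold PO
  rw [coeff_map, coeff_reflect, coeff_reflect, coeff_LO, coeff_LO]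
  split_ifs with h1
  · unfold AO
    rw [map_sum]
    exact Finset.sum_congr rfl fun h _ => chi_galois hζ g hg ht _
  · exact map_zero g

theorem AO_integral {ζ : R} (hζ : ζ ^ p = 1) (f : k[X]) (t : ZMod p) (n : ℕ) :
    IsIntegral ℤ (AO hζ f t n) := by
  unfold AO
  refine IsIntegral.sum _ fun h _ => ?_
  rw [chi_apply]
  refine IsIntegral.pow ?_ _
  refine ⟨X ^ p - 1, monic_X_pow_sub_C 1 (Fact.out : p.Prime).ne_zero, ?_⟩
  simp [hζ]

end

theorem exists_fin {α : Type*} (s : Multiset α) {N : ℕ} (h : s.card = N) :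
    ∃ γ : Fin N → α, Multiset.map γ Finset.univ.val = s := by
  subst h
  induction s using Quotient.inductionOn with
  | h l =>
    refine ⟨fun i => l.get (Fin.cast (by simp) i), ?_⟩
    have h1 : (fun i : Fin (Multiset.card (Quotient.mk _ l : Multiset α)) =>
        l.get (Fin.cast (by simp) i)) = l.get := rfl
    rw [h1]
    change Multiset.map l.get (Finset.univ : Finset (Fin l.length)).val = (l : Multiset α)
    rw [Fin.univ_val_map, List.ofFn_get]

section

variable {p : ℕ} [Fact p.Prime] {k : Type} [Field k] [Fintype k] [Algebra (ZMod p) k]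
  [DecidableEq k]

theorem PO_roots {Ω : Type} [Field Ω] [IsAlgClosed Ω] {ζ : Ω} (hζ : ζ ^ p = 1) {f : k[X]}
    (h0 : 0 < f.natDegree) (t : ZMod p) {N : ℕ} (hN : N = f.natDegree - 1) :
    ∃ γ : Fin N → Ω, PO hζ f t = ∏ i, (X - C (γ i)) := by
  obtain ⟨h1, h2⟩ := PO_monic hζ h0 t
  have hs : (PO hζ f t).Splits := IsAlgClosed.splits _
  obtain ⟨γ, hγ⟩ := exists_fin (PO hζ f t).roots (N := N)
    (by rw [← hs.natDegree_eq_card_roots, h2, hN])
  refine ⟨γ, ?_⟩
  conv_lhs => rw [hs.eq_prod_roots_of_monic h1, ← hγ]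
  rw [Multiset.map_map]
  rfl

theorem PO_root_integral {Ω : Type} [Field Ω] {ζ : Ω} (hζ : ζ ^ p = 1) {f : k[X]}
    (h0 : 0 < f.natDegree) (t : ZMod p) {x : Ω} (hx : (PO hζ f t).eval x = 0) :
    IsIntegral ℤ x := by
  have hcoef : ∀ n, (PO hζ f t).coeff n ∈ (algebraMap (integralClosure ℤ Ω) Ω).range := by
    intro n
    unfold PO
    rw [coeff_reflect, coeff_LO]
    split_ifs with h1
    · exact ⟨⟨_, AO_integral hζ f t _⟩, rfl⟩
    · exact Subring.zero_mem _
  have hl : PO hζ f t ∈ lifts (algebraMap (integralClosure ℤ Ω) Ω) := by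
    rw [lifts_iff_coeff_lifts]
    intro n
    obtain ⟨y, hy⟩ := hcoef n
    exact ⟨y, hy⟩
  obtain ⟨Q, hQ, _, hQm⟩ := lifts_and_natDegree_eq_and_monic hl (PO_monic hζ h0 t).1
  have h2 : IsIntegral (integralClosure ℤ Ω) x := by
    refine ⟨Q, hQm, ?_⟩
    rw [← eval_map, hQ, hx]
  exact isIntegral_trans x h2

theorem PO_LP {ψz : ℂ} (hz : ψz ^ p = 1) (f : k[X]) (t : ZMod p) :
    LO hz f t = LP (chi hz t : AddChar k ℂ) f := rfl

theorem LP_eq {z : ℂ} (hz : z ^ p = 1) {f : k[X]} (h0 : 0 < f.natDegree) (t : ZMod p) {N : ℕ}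
    {Γ : Fin N → ℂ} (hΓ : PO hz f t = ∏ i, (X - C (Γ i))) :
    LP (chi hz t : AddChar k ℂ) f = ∏ i, (1 - C (Γ i) * X) := by
  rw [← PO_LP, ← PO_reverse hz h0 t, hΓ, reverse_roots]

/-- the sums over the extensions -/
theorem spectrum {z : ℂ} (hz : IsPrimitiveRoot z p) {f : k[X]} (hpf : ¬ p ∣ f.natDegree)
    {t : ZMod p} (ht : t ≠ 0) {N : ℕ} {Γ : Fin N → ℂ}
    (hΓ : PO hz.pow_eq_one f t = ∏ i, (X - C (Γ i))) (E : Type) [Field E] [Fintype E]
    [Algebra k E] :
    ∑ x : E, z ^ (t * Algebra.trace (ZMod p) k (Algebra.trace k E (aeval x f))).val =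
      -∑ i, Γ i ^ Module.finrank k E := by
  have hd : (f.natDegree : k) ≠ 0 := natDegree_cast_ne (p := p) hpf
  have h0 : 0 < f.natDegree := nd_pos hd
  have h1 := TG_eq_sum (E := E) (chi hz.pow_eq_one t : AddChar k ℂ) f
  have h2 : ∑ x : E, z ^ (t * Algebra.trace (ZMod p) k (Algebra.trace k E (aeval x f))).val =
      ∑ x : E, (chi hz.pow_eq_one t : AddChar k ℂ) (Algebra.trace k E (aeval x f)) := rfl
  rw [h2, ← h1]
  have h3 := LP_HID (chi_ne_one (k := k) hz ht) hd
  rw [LP_eq hz.pow_eq_one h0 t hΓ] at h3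
  refine HID_unique ?_ h3 (HID_roots Γ) Module.finrank_pos
  intro h4
  have h5 := coeff_zero_LP (chi_ne_one (k := k) hz ht) hd
  rw [LP_eq hz.pow_eq_one h0 t hΓ, h4, coeff_zero] at h5
  exact zero_ne_one h5

theorem app (hG : S_GLU) (hA : S_ACT) (hP : S_PLA) {z : ℂ} (hz : IsPrimitiveRoot z p) {f : k[X]}
    (h2 : 2 ≤ f.natDegree) (h4 : f.natDegree ≤ 4) (hpf : ¬ p ∣ f.natDegree)
    (Γ : Ch p × Fin (f.natDegree - 1) → ℂ)
    (hΓ : ∀ t : Ch p, PO hz.pow_eq_one f (t : ZMod p) = ∏ i, (X - C (Γ (t, i)))) :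
    (∀ x, ‖Γ x‖ ^ 2 = Fintype.card k) ∧ DetRel (Fintype.card k : ℂ) Γ ∧
      (CaseA (Fintype.card k : ℂ) Γ ∨ CaseB (Fintype.card k : ℂ) Γ) := by
  have hp : p.Prime := Fact.out
  have h0 : 0 < f.natDegree := by omega
  obtain ⟨j⟩ : Nonempty (AlgebraicClosure ℚ →+* ℂ) := by
    haveI : Algebra.IsAlgebraic ℚ (AlgebraicClosure ℚ) := AlgebraicClosure.isAlgebraic ℚ
    exact ⟨(IsAlgClosed.lift : AlgebraicClosure ℚ →ₐ[ℚ] ℂ).toRingHom⟩
  let Ω := AlgebraicClosure ℚ
  -- the root of unity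
  obtain ⟨ζ, hζj⟩ : ∃ ζ : Ω, j ζ = z := by
    obtain ⟨ζ', hζ'⟩ : ∃ ζ' : Ω, IsPrimitiveRoot ζ' p := HasEnoughRootsOfUnity.exists_primitiveRoot Ω p
    have h1 : IsPrimitiveRoot (j ζ') p := hζ'.map_of_injective j.injective
    obtain ⟨i, _, hi⟩ := h1.eq_pow_of_pow_eq_one hz.pow_eq_one
    exact ⟨ζ' ^ i, by rw [map_pow, hi]⟩
  have hζ : IsPrimitiveRoot ζ p := by
    rw [← hζj] at hz
    exact hz.of_map_of_injective j.injective
  -- the roots
  have hex : ∀ x : Ch p × Fin (f.natDegree - 1), ∃ γ : Ω, j γ = Γ x := by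
    rintro ⟨t, i⟩
    obtain ⟨δ, hδ⟩ := PO_roots (k := k) hζ.pow_eq_one (f := f) h0 (t : ZMod p) rfl
    have h1 : (PO hz.pow_eq_one f (t : ZMod p)).eval (Γ (t, i)) = 0 := by
      rw [hΓ, eval_prod]
      exact Finset.prod_eq_zero (Finset.mem_univ i) (by simp)
    rw [← PO_map j hζ.pow_eq_one hz.pow_eq_one hζj f (t : ZMod p), hδ, Polynomial.map_prod,
      eval_prod, Finset.prod_eq_zero_iff] at h1
    obtain ⟨i', _, h2⟩ := h1
    refine ⟨δ i', ?_⟩
    simp only [Polynomial.map_sub, map_X, map_C, eval_sub, eval_X, eval_C] at h2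
    exact (sub_eq_zero.1 h2).symm
  choose γ hγj using hex
  have hγ : ∀ t : Ch p, PO hζ.pow_eq_one f (t : ZMod p) = ∏ i, (X - C (γ (t, i))) := by
    intro t
    apply Polynomial.map_injective j j.injective
    rw [PO_map j hζ.pow_eq_one hz.pow_eq_one hζj f (t : ZMod p), hΓ, Polynomial.map_prod]
    refine Finset.prod_congr rfl fun i _ => ?_
    simp [hγj]
  have hcard : ∃ a : ℕ, 0 < a ∧ (Fintype.card k : ℂ) = (p : ℂ) ^ a ∧
      (Fintype.card k : ℝ) = (p : ℝ) ^ a := by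
    have h1 := Module.card_eq_pow_finrank (K := ZMod p) (V := k)
    rw [ZMod.card] at h1
    refine ⟨Module.finrank (ZMod p) k, Module.finrank_pos, ?_, ?_⟩
    · rw [h1]; push_cast; rfl
    · rw [h1]; push_cast; rfl
  obtain ⟨a, ha, hc1, hc2⟩ := hcard
  have hroots : ∀ (φ : Ω →+* ℂ) {w : ℂ} (hw : IsPrimitiveRoot w p) (hφ : φ ζ = w) (t : Ch p),
      PO hw.pow_eq_one f (t : ZMod p) = ∏ i, (X - C (φ (γ (t, i)))) := by
    intro φ w hw hφ t
    rw [← PO_map φ hζ.pow_eq_one hw.pow_eq_one hφ f (t : ZMod p), hγ t, Polynomial.map_prod]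
    refine Finset.prod_congr rfl fun i _ => ?_
    simp
  have hmain := hG hA hP p a (f.natDegree - 1) ζ (fun t => PO hζ.pow_eq_one f (t : ZMod p))
    γ j ha (by omega) (by omega) hζ hγ
    (fun g u t t' hg ht => PO_galois hζ.pow_eq_one (g : Ω →+* Ω) hg ht f)
    (by
      intro φ x
      rw [← hc2]
      have hw : IsPrimitiveRoot (φ ζ) p := hζ.map_of_injective φ.injective
      exact pure hw hpf x.1.2 rfl (fun i => φ (γ (x.1, i)))
        (LP_eq hw.pow_eq_one h0 _ (hroots φ hw rfl x.1)) x.2)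
    (by
      intro x
      apply PO_root_integral hζ.pow_eq_one h0 (x.1 : ZMod p)
      rw [hγ, eval_prod]
      exact Finset.prod_eq_zero (Finset.mem_univ x.2) (by simp))
  rw [← hc1] at hmain
  have hfun : (fun x => j (γ x)) = Γ := funext hγj
  rw [hfun] at hmain
  refine ⟨?_, hmain.1, hmain.2⟩
  intro x
  exact pure hz hpf x.1.2 rfl (fun i => Γ (x.1, i)) (LP_eq hz.pow_eq_one h0 _ (hΓ x.1)) x.2

/-- the power sums determine the polynomial -/
theorem HID_determines {a b : ℂ[X]} {S U : ℕ → ℂ} (h1 : HID a S) (h2 : HID b U)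
    (h0 : a.coeff 0 = b.coeff 0) (hS : ∀ m, 1 ≤ m → S m = U m) : a = b := by
  ext n
  induction n using Nat.strong_induction_on with
  | h n ih =>
    rcases Nat.eq_zero_or_pos n with h | h
    · rw [h, h0]
    · have e1 := h1 n
      have e2 := h2 n
      have e3 : ∑ m ∈ Finset.Icc 1 n, a.coeff (n - m) * S m =
          ∑ m ∈ Finset.Icc 1 n, b.coeff (n - m) * U m := by
        refine Finset.sum_congr rfl fun m hm => ?_
        rw [Finset.mem_Icc] at hm
        rw [ih (n - m) (by omega), hS m hm.1]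
      rw [e3, ← e2] at e1
      exact mul_left_cancel₀ (by exact_mod_cast h.ne') e1

/-- the spectrum determines the roots -/
theorem roots_of_spectrum {z : ℂ} (hz : IsPrimitiveRoot z p) {f : k[X]} (hpf : ¬ p ∣ f.natDegree)
    {t : ZMod p} (ht : t ≠ 0) (Γ : Fin (f.natDegree - 1) → ℂ)
    (hΓ : ∀ (E : Type) [Field E] [Fintype E] [Algebra k E],
      ∑ x : E, z ^ (t * Algebra.trace (ZMod p) k (Algebra.trace k E (aeval x f))).val =
        -∑ i, Γ i ^ Module.finrank k E) :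
    PO hz.pow_eq_one f t = ∏ i, (X - C (Γ i)) := by
  have hd : (f.natDegree : k) ≠ 0 := natDegree_cast_ne (p := p) hpf
  have h0 : 0 < f.natDegree := nd_pos hd
  have hk : CharP k p := charP_of_injective_algebraMap (algebraMap (ZMod p) k).injective p
  have hnd : (∏ i, (X - C (Γ i))).natDegree = f.natDegree - 1 := by
    rw [natDegree_prod_of_monic _ _ fun i _ => monic_X_sub_C _]
    simp
  have h1 : LP (chi hz.pow_eq_one t : AddChar k ℂ) f = ∏ i, (1 - C (Γ i) * X) := by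
    refine HID_determines (LP_HID (chi_ne_one (k := k) hz ht) hd) (HID_roots Γ) ?_ ?_
    · rw [coeff_zero_LP (chi_ne_one (k := k) hz ht) hd, coeff_zero_prod]
      symm
      exact Finset.prod_eq_one fun i _ => by simp
    · intro m hm
      have : NeZero m := ⟨by omega⟩
      let E := FiniteField.Extension k p m
      let _ : Fintype E := Fintype.ofFinite E
      have hfr : Module.finrank k E = m := FiniteField.finrank_extension k p m
      have h2 := TG_eq_sum (E := E) (chi hz.pow_eq_one t : AddChar k ℂ) f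
      rw [hfr] at h2
      rw [h2]
      have h3 := hΓ E
      rw [hfr] at h3
      exact h3
  ext n
  have h2 := PO_reverse hz.pow_eq_one h0 t
  rw [PO_LP, h1, ← reverse_roots] at h2
  have h3 := congrArg (fun P => P.coeff (revAt (f.natDegree - 1) n)) h2
  simp only [coeff_reverse] at h3
  rw [hnd, (PO_monic hz.pow_eq_one h0 t).2, revAt_invol] at h3
  exact h3

end

end Pool.Agent.H856.WD
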