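import Mathlib

/-!
# Tensors, Tate classes and systems of algebraic classes: definitions

`T` is a finite set of characters, `V t` (`t` in `T`) is a vector space with a basis of `N`
eigenvectors of the Frobenius, with the eigenvalues `Γ (t, i)`, and `H` is the direct sum of the `V t`.
-/

set_option autoImplicit false

open Polynomial

namespace Pool.Agent.H856.WD

/-- the `n`-th tensor power of `H`, in coordinates -/
abbrev Tens (T : Type) (N n : ℕ) : Type := (Fin n → T × Fin N) → ℂ

/-- `S` is a Tate class over some finite extension: for some `m ≥ 1` the `m`-th power of the Frobenius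
multiplies `S` by `q ^ (c m)`, where `2 c = n` -/
def IsTate {T : Type} {N : ℕ} (q : ℂ) (Γ : T × Fin N → ℂ) {n : ℕ} (S : Tens T N n) : Prop :=
  ∃ m c : ℕ, 0 < m ∧ n = 2 * c ∧ ∀ a, S a ≠ 0 → (∏ i, Γ (a i)) ^ m = q ^ (c * m)

/-- the determinant of `V t`, in the `N`-th tensor power of `H`: its coordinate at `a` is the sign of
`a` if `a` is a permutation of the basis of `V t`, and zero otherwise -/
noncomputable def detT {T : Type} [DecidableEq T] {N : ℕ} (t : T) : Tens T N N := fun a =>
  if ∀ i, (a i).1 = t then Matrix.det (Matrix.of fun i j => if (a i).2 = j then (1 : ℂ) else 0)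
  else 0

/-- the properties of the spaces `A n` of the algebraic classes in the tensor powers of `H` -/
structure IsCycleSystem {T : Type} [Fintype T] [DecidableEq T] {N : ℕ} (q : ℂ)
    (Γ : T × Fin N → ℂ) (A : ∀ n, Submodule ℂ (Tens T N n)) : Prop where
  /-- the unit -/
  unit : (fun _ => 1 : Tens T N 0) ∈ A 0
  /-- exterior products -/
  prod : ∀ {m n : ℕ} (S : Tens T N m) (S' : Tens T N n), S ∈ A m → S' ∈ A n →
    (fun a => S (fun i => a (Fin.castAdd n i)) * S' (fun i => a (Fin.natAdd m i)) :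
      Tens T N (m + n)) ∈ A (m + n)
  /-- permutations of the factors -/
  perm : ∀ {n : ℕ} (S : Tens T N n) (σ : Equiv.Perm (Fin n)), S ∈ A n →
    (fun a => S (a ∘ σ)) ∈ A n
  /-- the endomorphisms of `H` which commute with a power of the Frobenius are combinations of
  algebraic correspondences (the theorem of Tate), and these act on the algebraic classes -/
  endo : ∀ (E : T × Fin N → T × Fin N → ℂ) (m : ℕ), 0 < m →
    (∀ x y, E x y ≠ 0 → Γ x ^ m = Γ y ^ m) → ∀ {n : ℕ} (S : Tens T N n) (i : Fin n), S ∈ A n →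
    (fun a => ∑ y, E (a i) y * S (Function.update a i y)) ∈ A n
  /-- the Tate classes of degree two are algebraic (the theorem of Tate) -/
  tate : ∀ S : Tens T N 2, IsTate q Γ S → S ∈ A 2
  /-- the Weil classes are algebraic, if `N` is even -/
  weil : Even N → ∀ t, detT t ∈ A N
  /-- the products of two Weil classes are algebraic -/
  weil₂ : ∀ t t', (fun a => detT t (fun i => a (Fin.castAdd N i)) *
    detT t' (fun i => a (Fin.natAdd N i)) : Tens T N (N + N)) ∈ A (N + N)

/-- the product of the eigenvalues in `w` is, up to a root of unity, `q ^ (n / 2)`, where `n` is the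
number of elements of `w` -/
def RelW {ι : Type} (q : ℂ) (Γ : ι → ℂ) (w : Multiset ι) : Prop :=
  ∃ m : ℕ, 0 < m ∧ (w.map Γ).prod ^ (2 * m) = q ^ (m * w.card)

/-- `Γ x Γ y` is `q` up to a root of unity -/
def Dual {ι : Type} (q : ℂ) (Γ : ι → ℂ) (x y : ι) : Prop := ∃ m : ℕ, 0 < m ∧ (Γ x * Γ y) ^ m = q ^ m

/-- `Γ x` is `Γ y` up to a root of unity -/
def Eqv {ι : Type} (Γ : ι → ℂ) (x y : ι) : Prop := ∃ m : ℕ, 0 < m ∧ Γ x ^ m = Γ y ^ m

/-- all words in `RelW` with at least two letters have a dual pair -/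
def CaseA {T : Type} {N : ℕ} (q : ℂ) (Γ : T × Fin N → ℂ) : Prop :=
  ∀ w : Multiset (T × Fin N), RelW q Γ w → 2 ≤ w.card → ∃ x y, {x, y} ≤ w ∧ Dual q Γ x y

/-- all nonempty words in `RelW` have a dual pair or are divisible by a determinant, up to `Eqv` -/
def CaseB {T : Type} {N : ℕ} (q : ℂ) (Γ : T × Fin N → ℂ) : Prop :=
  ∀ w : Multiset (T × Fin N), RelW q Γ w → w ≠ 0 → (∃ x y, {x, y} ≤ w ∧ Dual q Γ x y) ∨
    ∃ (t : T) (a : Fin N → T × Fin N), (∀ i, Eqv Γ (a i) (t, i)) ∧
      Multiset.map a Finset.univ.val ≤ w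

/-- every determinant is in `RelW` -/
def DetRel {T : Type} {N : ℕ} (q : ℂ) (Γ : T × Fin N → ℂ) : Prop :=
  ∀ t : T, RelW q Γ (Multiset.map (fun i => (t, i)) Finset.univ.val)

/-- CLO: the Tate classes are in every system of classes -/
def S_CLO : Prop :=
  ∀ (T : Type) [Fintype T] [DecidableEq T] (N : ℕ) (q : ℂ) (Γ : T × Fin N → ℂ)
    (A : ∀ n, Submodule ℂ (Tens T N n)), 0 < N → q ≠ 0 → (∀ x, Γ x ≠ 0) →
    IsCycleSystem q Γ A → DetRel q Γ → (CaseA q Γ ∨ CaseB q Γ) →
    ∀ (n : ℕ) (S : Tens T N n), IsTate q Γ S → S ∈ A n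

end Pool.Agent.H856.WD
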