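import Pool.Agent.H856.WD.Defs

/-! # The Tate classes form a system of classes (statement) -/

set_option autoImplicit false

namespace Pool.Agent.H856.WD

/-- the span of the Tate classes -/
noncomputable def tateSub {T : Type} {N : ℕ} (q : ℂ) (Γ : T × Fin N → ℂ) (n : ℕ) :
    Submodule ℂ (Tens T N n) := Submodule.span ℂ {S | IsTate q Γ S}

/-- SYS: the Tate classes form a system of classes, and every element of `tateSub` is zero or Tate -/
def S_SYS : Prop :=
  ∀ (T : Type) [Fintype T] [DecidableEq T] (N : ℕ) (q : ℂ) (Γ : T × Fin N → ℂ), q ≠ 0 →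
    DetRel q Γ → IsCycleSystem q Γ (tateSub q Γ) ∧
      ∀ (n : ℕ) (S : Tens T N n), S ∈ tateSub q Γ n → S = 0 ∨ IsTate q Γ S

end Pool.Agent.H856.WD
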