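import Pool.Agent.H856.WD.Spec
import Pool.Agent.H856.WC.WeilAS

/-! # Characters and absolute values -/

set_option autoImplicit false
set_option linter.all false
set_option linter.unusedSectionVars false

open Polynomial

namespace Pool.Agent.H856.WD

open Pool.Agent.H341R2.Sharp hiding lam lam_mul lam_one lam_pow
open Pool.Agent.H498R2.Kl Pool.Agent.H856.WC

section chi

variable {p : ℕ} [Fact p.Prime] {k : Type*} [Field k] [Algebra (ZMod p) k] {R : Type*} [CommRing R]

/-- the character `x ↦ z ^ (t Tr x)` -/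
noncomputable def chi {z : R} (hz : z ^ p = 1) (t : ZMod p) : AddChar k R :=
  (AddChar.zmodChar p hz).compAddMonoidHom
    ((AddMonoidHom.mulLeft t).comp (Algebra.trace (ZMod p) k).toAddMonoidHom)

theorem chi_apply {z : R} (hz : z ^ p = 1) (t : ZMod p) (x : k) :
    chi hz t x = z ^ (t * Algebra.trace (ZMod p) k x).val := rfl

theorem chi_ne_one [Finite k] {z : R} (hz : IsPrimitiveRoot z p) {t : ZMod p} (ht : t ≠ 0) :
    (chi hz.pow_eq_one t : AddChar k R) ≠ 1 := by
  have hp : Fact (1 < p) := ⟨(Fact.out : p.Prime).one_lt⟩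
  obtain ⟨x, hx⟩ := Algebra.trace_surjective (ZMod p) k (t⁻¹)
  apply AddChar.ne_one_iff.2
  refine ⟨x, ?_⟩
  rw [chi_apply, hx, mul_inv_cancel₀ ht, ZMod.val_one, pow_one]
  exact hz.ne_one hp.out

theorem chi_map {R' : Type*} [CommRing R'] (φ : R →+* R') {z : R} (hz : z ^ p = 1) {z' : R'}
    (hz' : z' ^ p = 1) (h : φ z = z') (t : ZMod p) (x : k) : φ (chi hz t x) = chi hz' t x := by
  rw [chi_apply, chi_apply, map_pow, h]

end chi

section count

variable {p : ℕ} [Fact p.Prime] {k : Type} [Field k] [Fintype k] [Algebra (ZMod p) k]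

theorem count_as {E : Type} [Field E] [Fintype E] [Algebra k E] {z : ℂ} (hz : IsPrimitiveRoot z p)
    (f : k[X]) :
    ∑ t : ZMod p, ∑ x : E, (chi hz.pow_eq_one t : AddChar k ℂ) (Algebra.trace k E (aeval x f)) =
      Nat.card {w : E × E // w.2 ^ p - w.2 = aeval w.1 f} := by
  classical
  have hk : CharP k p := charP_of_injective_algebraMap (algebraMap (ZMod p) k).injective p
  have hE : CharP E p := charP_of_injective_algebraMap (algebraMap k E).injective p
  let _ : Algebra (ZMod p) E := ZMod.algebra E p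
  have : IsScalarTower (ZMod p) k E := IsScalarTower.of_algebraMap_eq' (RingHom.ext_zmod _ _)
  have hprim := AddChar.zmodChar_primitive_of_primitive_root p hz
  rw [Finset.sum_comm]
  have h1 : ∀ x : E, ∑ t : ZMod p, (chi hz.pow_eq_one t : AddChar k ℂ)
      (Algebra.trace k E (aeval x f)) =
      ((Finset.univ.filter fun w : E => w ^ p - w = aeval x f).card : ℂ) := by
    intro x
    have e1 : ∀ t : ZMod p, (chi hz.pow_eq_one t : AddChar k ℂ) (Algebra.trace k E (aeval x f)) =
        AddChar.zmodChar p hz.pow_eq_one (t * Algebra.trace (ZMod p) E (aeval x f)) := by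
      intro t
      have h := Algebra.trace_trace (R := ZMod p) (S := k) (aeval x f)
      rw [← h]
      rfl
    rw [Finset.sum_congr rfl fun t _ => e1 t]
    rw [AddChar.sum_mulShift _ hprim]
    have h2 := hilbert90 (F := ZMod p) (E := E) (aeval x f)
    rw [ZMod.card] at h2
    rw [h2, ZMod.card]
  rw [Finset.sum_congr rfl fun x _ => h1 x, Nat.card_eq_fintype_card, Fintype.card_subtype]
  rw [← Nat.cast_sum]
  congr 1
  rw [Finset.card_eq_sum_card_fiberwise (f := Prod.fst) (t := Finset.univ) (by simp)]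
  refine Finset.sum_congr rfl fun x _ => ?_
  refine Finset.card_bij (fun w _ => (x, w)) ?_ ?_ ?_
  · intro w hw
    rw [Finset.mem_filter] at hw
    simp [hw.2]
  · intro a _ b _ hab
    exact (Prod.ext_iff.1 hab).2
  · rintro ⟨x', w⟩ hw
    simp only [Finset.mem_filter, Finset.mem_univ, true_and] at hw
    obtain ⟨hw1, rfl⟩ := hw
    exact ⟨w, by simp [hw1], rfl⟩

variable [DecidableEq k]

/-- the sums over all nontrivial characters -/
noncomputable def SS {z : ℂ} (hz : z ^ p = 1) (f : k[X]) (m : ℕ) : ℂ :=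
  ∑ t ∈ Finset.univ.filter (fun t : ZMod p => t ≠ 0), TG (lam (chi hz t : AddChar k ℂ) f) m

theorem SS_eq {E : Type} [Field E] [Fintype E] [Algebra k E] {z : ℂ} (hz : IsPrimitiveRoot z p)
    (f : k[X]) : SS hz.pow_eq_one f (Module.finrank k E) =
      Nat.card {w : E × E // w.2 ^ p - w.2 = aeval w.1 f} - Nat.card E := by
  classical
  rw [← count_as (E := E) hz f]
  unfold SS
  have h1 : ∀ t : ZMod p, TG (lam (chi hz.pow_eq_one t : AddChar k ℂ) f) (Module.finrank k E) =
      ∑ x : E, (chi hz.pow_eq_one t : AddChar k ℂ) (Algebra.trace k E (aeval x f)) :=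
    fun t => TG_eq_sum (E := E) _ f
  rw [Finset.sum_congr rfl fun t _ => h1 t,
    ← Finset.sum_filter_add_sum_filter_not Finset.univ (fun t : ZMod p => t ≠ 0)]
  have h2 : (Finset.univ.filter fun t : ZMod p => ¬ t ≠ 0) = {0} := by
    ext c
    simp
  rw [h2, Finset.sum_singleton]
  have h3 : ∑ x : E, (chi hz.pow_eq_one (0 : ZMod p) : AddChar k ℂ)
      (Algebra.trace k E (aeval x f)) = Nat.card E := by
    simp [chi_apply, Nat.card_eq_fintype_card]
  rw [h3]
  ring

theorem SS_bound {z : ℂ} (hz : IsPrimitiveRoot z p) {f : k[X]} (h0 : 0 < f.natDegree)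
    (hpf : ¬ p ∣ f.natDegree) : ∃ C : ℝ, 0 ≤ C ∧ ∀ m : ℕ, 1 ≤ m →
      ‖SS hz.pow_eq_one f m‖ ≤ C * √(Fintype.card k : ℝ) ^ m := by
  have hk : CharP k p := charP_of_injective_algebraMap (algebraMap (ZMod p) k).injective p
  obtain ⟨C, hC⟩ := weil_as p k f h0 hpf
  refine ⟨|C|, abs_nonneg C, ?_⟩
  intro m hm
  have : NeZero m := ⟨by omega⟩
  let E := FiniteField.Extension k p m
  let _ : Fintype E := Fintype.ofFinite E
  have hfr : Module.finrank k E = m := FiniteField.finrank_extension k p m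
  have hcard : Fintype.card E = Fintype.card k ^ m := by
    rw [Module.card_eq_pow_finrank (K := k) (V := E), hfr]
  have h1 := SS_eq (E := E) hz f
  rw [hfr] at h1
  rw [h1]
  have h2 := hC E
  have h3 : √(Nat.card E : ℝ) = √(Fintype.card k : ℝ) ^ m := by
    rw [Nat.card_eq_fintype_card, hcard]
    push_cast
    rw [Real.sqrt_eq_iff_mul_self_eq (by positivity) (by positivity), ← mul_pow,
      Real.mul_self_sqrt (by positivity)]
  rw [h3] at h2
  have h4 : ‖(Nat.card {w : E × E // w.2 ^ p - w.2 = aeval w.1 f} - Nat.card E : ℂ)‖ =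
      |(Nat.card {w : E × E // w.2 ^ p - w.2 = aeval w.1 f} : ℝ) - Nat.card E| := by
    rw [← Real.norm_eq_abs, ← Complex.norm_real]
    push_cast
    rfl
  rw [h4]
  exact h2.trans (mul_le_mul_of_nonneg_right (le_abs_self C) (by positivity))

theorem coeff_zero_LP {ψ : AddChar k ℂ} (hψ : ψ ≠ 1) {f : k[X]} (hd : (f.natDegree : k) ≠ 0) :
    (LP ψ f).coeff 0 = 1 := by
  rw [coeff_LP hψ hd, AG_zero (lam_mult ψ f)]

theorem natDegree_cast_ne {f : k[X]} (hpf : ¬ p ∣ f.natDegree) : (f.natDegree : k) ≠ 0 := by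
  have hk : CharP k p := charP_of_injective_algebraMap (algebraMap (ZMod p) k).injective p
  intro h
  exact hpf ((CharP.cast_eq_zero_iff k p _).1 h)

theorem LP_root {z : ℂ} (hz : IsPrimitiveRoot z p) {f : k[X]} (hpf : ¬ p ∣ f.natDegree)
    {t : ZMod p} (ht : t ≠ 0) {w : ℂ}
    (hw : (LP (chi hz.pow_eq_one t : AddChar k ℂ) f).eval w = 0) :
    1 ≤ √(Fintype.card k : ℝ) * ‖w‖ := by
  classical
  have hd : (f.natDegree : k) ≠ 0 := natDegree_cast_ne (p := p) hpf
  have h0 : 0 < f.natDegree := by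
    rcases Nat.eq_zero_or_pos f.natDegree with h | h
    · rw [h] at hpf
      exact absurd (dvd_zero p) hpf
    · exact h
  obtain ⟨C, hC0, hC⟩ := SS_bound hz h0 hpf
  have hne : ∀ t ∈ Finset.univ.filter (fun t : ZMod p => t ≠ 0),
      (chi hz.pow_eq_one t : AddChar k ℂ) ≠ 1 := by
    intro t ht
    exact chi_ne_one hz (Finset.mem_filter.1 ht).2
  have hid := HID.prod (Finset.univ.filter (fun t : ZMod p => t ≠ 0))
    (fun t => LP (chi hz.pow_eq_one t : AddChar k ℂ) f)
    (fun t => TG (lam (chi hz.pow_eq_one t : AddChar k ℂ) f))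
    (fun t ht => LP_HID (hne t ht) hd)
  refine root_norm _ ?_ _ (√(Fintype.card k : ℝ)) C ?_ hC0 hC hid w ?_
  · rw [coeff_zero_prod]
    exact Finset.prod_eq_one fun t ht => coeff_zero_LP (hne t ht) hd
  · apply Real.sqrt_pos.2
    exact_mod_cast Fintype.card_pos
  · rw [eval_prod]
    exact Finset.prod_eq_zero (Finset.mem_filter.2 ⟨Finset.mem_univ _, ht⟩) hw

theorem pure {z : ℂ} (hz : IsPrimitiveRoot z p) {f : k[X]} (hpf : ¬ p ∣ f.natDegree)
    {t : ZMod p} (ht : t ≠ 0) {N : ℕ} (hN : N = f.natDegree - 1) (Γ : Fin N → ℂ)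
    (hΓ : LP (chi hz.pow_eq_one t : AddChar k ℂ) f = ∏ i, (1 - C (Γ i) * X))
    (i : Fin N) : ‖Γ i‖ ^ 2 = Fintype.card k := by
  classical
  have hd : (f.natDegree : k) ≠ 0 := natDegree_cast_ne (p := p) hpf
  set q : ℝ := (Fintype.card k : ℝ) with hq
  have hq0 : 0 < q := by
    rw [hq]
    exact_mod_cast Fintype.card_pos
  have hψ : (chi hz.pow_eq_one t : AddChar k ℂ) ≠ 1 := chi_ne_one hz ht
  have hnd : (∏ i, (X - C (Γ i))).natDegree = N := by
    rw [natDegree_prod_of_monic _ _ fun i _ => monic_X_sub_C _]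
    simp
  have htop : ∏ i, ‖Γ i‖ ^ 2 = q ^ N := by
    have h1 := normSq_AG hψ hd
    rw [← hN, ← coeff_LP hψ hd, hΓ, ← reverse_roots, coeff_reverse, hnd, revAt_le le_rfl,
      Nat.sub_self, coeff_zero_prod] at h1
    rw [Finset.prod_pow, ← norm_prod]
    rw [← h1]
    congr 1
    rw [norm_prod, norm_prod]
    refine Finset.prod_congr rfl fun i _ => ?_
    simp
  have hne : ∀ i, Γ i ≠ 0 := by
    intro i hi
    rw [Finset.prod_eq_zero (Finset.mem_univ i) (by rw [hi]; simp)] at htop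
    exact (pow_pos hq0 N).ne htop
  have hle : ∀ i, ‖Γ i‖ ^ 2 ≤ q := by
    intro i
    have h1 : (LP (chi hz.pow_eq_one t : AddChar k ℂ) f).eval (Γ i)⁻¹ = 0 := by
      rw [hΓ, eval_prod]
      refine Finset.prod_eq_zero (Finset.mem_univ i) ?_
      simp [mul_inv_cancel₀ (hne i)]
    have h2 := LP_root hz hpf ht h1
    have h3 : 0 < ‖Γ i‖ := norm_pos_iff.2 (hne i)
    rw [norm_inv, ← div_eq_mul_inv, one_le_div h3] at h2
    calc ‖Γ i‖ ^ 2 ≤ √q ^ 2 := by
          apply pow_le_pow_left₀ h3.le h2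
      _ = q := Real.sq_sqrt hq0.le
  by_contra hcon
  have hlt : ‖Γ i‖ ^ 2 < q := lt_of_le_of_ne (hle i) hcon
  have h1 : ∏ i, ‖Γ i‖ ^ 2 < ∏ _i : Fin N, q := by
    refine Finset.prod_lt_prod (fun i _ => pow_pos (norm_pos_iff.2 (hne i)) 2) (fun i _ => hle i)
      ⟨i, Finset.mem_univ _, hlt⟩
  rw [htop] at h1
  simp at h1

end count

end Pool.Agent.H856.WD
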