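import Pool.Agent.H856.WC.Top
import Pool.Graph.R_seed8.H498R2.KlMain

/-! # The spectrum: sums of `ψ (f (x))` over the extensions of a finite field -/

set_option autoImplicit false
set_option linter.all false
set_option linter.unusedSectionVars false

open Polynomial IntermediateField

namespace Pool.Agent.H856.WD

open Pool.Agent.H341R2.Sharp hiding lam lam_mul lam_one lam_pow
open Pool.Agent.H498R2.Kl Pool.Agent.H856.WC

section tr

variable {F E : Type*} [Field F] [Field E] [Algebra F E] [FiniteDimensional F E]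
  [Algebra.IsSeparable F E]

theorem trace_gen_FF (x : E) (f : F[X]) :
    Algebra.trace F F⟮x⟯ (aeval (AdjoinSimple.gen F x) f) = FF f (minpoly F x) := by
  classical
  set P := minpoly F x with hP
  let Ω := AlgebraicClosure F
  have hx : IsIntegral F x := Algebra.IsIntegral.isIntegral x
  have : Algebra.IsSeparable F F⟮x⟯ := Algebra.isSeparable_tower_bot_of_isSeparable F F⟮x⟯ E
  have hmon : P.Monic := minpoly.monic hx
  have hsplit : (P.map (algebraMap F Ω)).Splits := IsAlgClosed.splits _
  apply (algebraMap F Ω).injective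
  rw [trace_eq_sum_embeddings (E := Ω)]
  have h1 : ∀ σ : F⟮x⟯ →ₐ[F] Ω, σ (aeval (AdjoinSimple.gen F x) f) =
      aeval (σ (AdjoinSimple.gen F x)) f := fun σ => (aeval_algHom_apply σ _ f).symm
  simp_rw [h1]
  rw [sum_emb x (fun z => aeval z f), FF_eq_sum f hmon hsplit]

theorem trace_FF (x : E) (f : F[X]) :
    Algebra.trace F E (aeval x f) =
      (Module.finrank F E / (minpoly F x).natDegree) • FF f (minpoly F x) := by
  have h1 : aeval x f = algebraMap F⟮x⟯ E (aeval (AdjoinSimple.gen F x) f) := by
    rw [← aeval_algebraMap_apply, AdjoinSimple.algebraMap_gen]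
  rw [h1, ← Algebra.trace_trace (S := F⟮x⟯), Algebra.trace_algebraMap, map_nsmul,
    trace_gen_FF x, (finrank_div x).1]

end tr

section

variable {F : Type} [Field F] [Fintype F] [DecidableEq F]

theorem TG_eq_sum {E : Type*} [Field E] [Fintype E] [Algebra F E]
    (ψ : AddChar F ℂ) (f : F[X]) :
    TG (lam ψ f) (Module.finrank F E) = ∑ x : E, ψ (Algebra.trace F E (aeval x f)) := by
  classical
  set m := Module.finrank F E with hm
  have hm0 : 0 < m := Module.finrank_pos
  unfold TG
  have h1 : ∀ x ∈ (Finset.univ : Finset E),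
      minpoly F x ∈ (Irr F m).filter (fun P => P.natDegree ∣ m) := by
    intro x _
    have hx : IsIntegral F x := Algebra.IsIntegral.isIntegral x
    rw [Finset.mem_filter, mem_Irr]
    refine ⟨⟨minpoly.monic hx, minpoly.irreducible hx, Nat.le_of_dvd hm0 (finrank_div x).2⟩,
      (finrank_div x).2⟩
  rw [← Finset.sum_fiberwise_of_maps_to h1]
  apply Finset.sum_congr rfl
  intro P hP
  rw [Finset.mem_filter, mem_Irr] at hP
  obtain ⟨⟨hmon, hirr, _⟩, hdvd⟩ := hP
  have h2 : ∀ x ∈ Finset.univ.filter (fun x : E => minpoly F x = P),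
        ψ (Algebra.trace F E (aeval x f)) = lam ψ f P ^ (m / P.natDegree) := by
    intro x hx
    rw [Finset.mem_filter] at hx
    unfold lam
    rw [trace_FF x f, AddChar.map_nsmul_eq_pow, hx.2]
  rw [Finset.sum_congr rfl h2, Finset.sum_const, nsmul_eq_mul]
  congr 2
  have h3 : Finset.univ.filter (fun x : E => minpoly F x = P) = (P.rootSet E).toFinset := by
    ext x
    rw [Finset.mem_filter, Set.mem_toFinset, mem_rootSet]
    constructor
    · rintro ⟨_, rfl⟩
      exact ⟨hmon.ne_zero, minpoly.aeval F x⟩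
    · rintro ⟨_, h⟩
      exact ⟨Finset.mem_univ _, (minpoly.eq_of_irreducible_of_monic hirr h hmon).symm⟩
  have hsplit : (P.map (algebraMap F E)).Splits := by
    have h4 : P ∣ X ^ (Nat.card F) ^ m - X :=
      (hirr.natDegree_dvd_iff_dvd_X_pow_card_pow_sub_X).1 hdvd
    have h5 : (P.map (algebraMap F E)) ∣ (X ^ (Nat.card F) ^ m - X : E[X]) := by
      have := Polynomial.map_dvd (algebraMap F E) h4
      simpa using this
    have hcard : (Nat.card F) ^ m = Fintype.card E := by
      rw [Nat.card_eq_fintype_card, Module.card_eq_pow_finrank (K := F) (V := E)]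
    rw [hcard] at h5
    have h6 : (X ^ Fintype.card E - X : E[X]).Splits := by
      rw [splits_iff_card_roots, FiniteField.roots_X_pow_card_sub_X,
        FiniteField.X_pow_card_sub_X_natDegree_eq _ Fintype.one_lt_card]
      rfl
    exact h6.of_dvd (FiniteField.X_pow_card_sub_X_ne_zero _ Fintype.one_lt_card) h5
  rw [h3, Set.toFinset_card, card_rootSet_eq_natDegree (PerfectField.separable_of_irreducible hirr)
    hsplit]

/-- the L-function of `ψ (f (x))` -/
noncomputable def LP (ψ : AddChar F ℂ) (f : F[X]) : ℂ[X] :=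
  ∑ n ∈ Finset.range f.natDegree, C (AG (lam ψ f) n) * X ^ n

theorem coeff_LP {ψ : AddChar F ℂ} (hψ : ψ ≠ 1) {f : F[X]} (hd : (f.natDegree : F) ≠ 0) (n : ℕ) :
    (LP ψ f).coeff n = AG (lam ψ f) n := by
  unfold LP
  rw [finset_sum_coeff]
  simp only [coeff_C_mul, coeff_X_pow]
  by_cases h : n < f.natDegree
  · rw [Finset.sum_eq_single n]
    · simp
    · intro m _ hm
      rw [if_neg (Ne.symm hm), mul_zero]
    · intro hn
      exact absurd (Finset.mem_range.2 h) hn
  · rw [AG_eq_zero hψ hd (by omega), Finset.sum_eq_zero]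
    intro m hm
    rw [Finset.mem_range] at hm
    rw [if_neg (by omega), mul_zero]

theorem LP_HID {ψ : AddChar F ℂ} (hψ : ψ ≠ 1) {f : F[X]} (hd : (f.natDegree : F) ≠ 0) :
    HID (LP ψ f) (TG (lam ψ f)) := by
  intro n
  rw [coeff_LP hψ hd, n_mul_AG (lam_mult ψ f)]
  refine Finset.sum_congr rfl fun m _ => ?_
  rw [coeff_LP hψ hd]

end

/-- uniqueness of the power sums -/
theorem HID_unique {a : ℂ[X]} (ha : a ≠ 0) {S U : ℕ → ℂ} (h1 : HID a S) (h2 : HID a U) {m : ℕ}
    (hm : 0 < m) : S m = U m := by
  rw [HID.iff] at h1 h2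
  have h3 : (a : PowerSeries ℂ) ≠ 0 := by
    intro h
    apply ha
    exact_mod_cast h
  have h4 := mul_left_cancel₀ h3 (h1.symm.trans h2)
  have h5 := congrArg (PowerSeries.coeff m) h4
  rw [PowerSeries.coeff_mk, PowerSeries.coeff_mk, if_neg hm.ne', if_neg hm.ne'] at h5
  exact h5

theorem HID_lin (g : ℂ) : HID (1 - C g * X) (fun m => -g ^ m) := by
  intro n
  have hc : ∀ i, (1 - C g * X : ℂ[X]).coeff i = if i = 0 then 1 else if i = 1 then -g else 0 := by
    intro i
    rw [coeff_sub, coeff_one, coeff_C_mul, coeff_X]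
    rcases i with _ | _ | i
    · simp
    · simp
    · simp
  rcases n with _ | _ | n
  · simp
  · simp [hc]
  · rw [hc, if_neg (by omega), if_neg (by omega), mul_zero]
    symm
    rw [← Finset.sum_subset (s₁ := {n + 1, n + 2})]
    · rw [Finset.sum_pair (by omega), hc, hc, if_neg (by omega), if_pos (by omega),
        if_pos (by omega)]
      ring
    · intro i hi
      simp only [Finset.mem_insert, Finset.mem_singleton] at hi
      rw [Finset.mem_Icc]
      omega
    · intro i hi hi2
      simp only [Finset.mem_insert, Finset.mem_singleton, not_or] at hi2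
      rw [Finset.mem_Icc] at hi
      rw [hc, if_neg (by omega), if_neg (by omega), zero_mul]

theorem HID_roots {N : ℕ} (Γ : Fin N → ℂ) :
    HID (∏ i, (1 - C (Γ i) * X)) (fun m => -∑ i, Γ i ^ m) := by
  have h := HID.prod Finset.univ (fun i => 1 - C (Γ i) * X) (fun i m => -Γ i ^ m)
    (fun i _ => HID_lin (Γ i))
  simpa [Finset.sum_neg_distrib] using h

theorem reverse_roots {R : Type*} [CommRing R] [IsDomain R] {N : ℕ} (g : Fin N → R) :
    (∏ i, (X - C (g i))).reverse = ∏ i, (1 - C (g i) * X) := by
  classical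
  have key : ∀ s : Finset (Fin N), (∏ i ∈ s, (X - C (g i))).reverse = ∏ i ∈ s, (1 - C (g i) * X) := by
    intro s
    induction s using Finset.induction_on with
    | empty =>
      rw [Finset.prod_empty, Finset.prod_empty, show (1 : R[X]) = C 1 by simp, reverse_C]
    | insert i s hi ih =>
      rw [Finset.prod_insert hi, Finset.prod_insert hi, reverse_mul_of_domain, ih]
      congr 1
      ext n
      rw [coeff_reverse, natDegree_X_sub_C]
      rcases n with _ | _ | n
      · rw [revAt_le (by omega)]
        simp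
      · rw [revAt_le (by omega)]
        simp [coeff_one]
      · rw [revAt_eq_self_of_lt (by omega)]
        simp [coeff_X, coeff_one, coeff_C]
  exact key Finset.univ

end Pool.Agent.H856.WD
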