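import Pool.Agent.H856.WD.Sys

/-! # The Tate classes form a system of classes (proof) -/

set_option autoImplicit false

namespace Pool.Agent.H856.WD

theorem tate_or {T : Type} {N : ℕ} (q : ℂ) (Γ : T × Fin N → ℂ) {n : ℕ} (S : Tens T N n)
    (hS : S ∈ tateSub q Γ n) : S = 0 ∨ IsTate q Γ S := by
  refine Submodule.span_induction (p := fun S _ => S = 0 ∨ IsTate q Γ S) ?_ ?_ ?_ ?_ hS
  · intro S hS
    exact Or.inr hS
  · exact Or.inl rfl
  · rintro S S' - - (h | ⟨m, c, hm, hn, h⟩) (h' | ⟨m', c', hm', hn', h'⟩)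
    · left
      rw [h, h', add_zero]
    · right
      rw [h, zero_add]
      exact ⟨m', c', hm', hn', h'⟩
    · right
      rw [h', add_zero]
      exact ⟨m, c, hm, hn, h⟩
    · right
      have hcc : c = c' := by omega
      subst hcc
      refine ⟨m * m', c, Nat.mul_pos hm hm', hn, fun a ha => ?_⟩
      have h3 : S a ≠ 0 ∨ S' a ≠ 0 := by
        by_contra h4
        push Not at h4
        apply ha
        rw [Pi.add_apply, h4.1, h4.2, add_zero]
      rcases h3 with h3 | h3
      · rw [pow_mul, h a h3, ← pow_mul, mul_assoc]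
      · rw [mul_comm m m', pow_mul, h' a h3, ← pow_mul, mul_assoc]
  · rintro r S - (h | ⟨m, c, hm, hn, h⟩)
    · left
      rw [h, smul_zero]
    · right
      refine ⟨m, c, hm, hn, fun a ha => h a fun h0 => ha ?_⟩
      rw [Pi.smul_apply, h0, smul_zero]

theorem tate_mem {T : Type} {N : ℕ} {q : ℂ} {Γ : T × Fin N → ℂ} {n : ℕ} {S : Tens T N n}
    (hS : IsTate q Γ S) : S ∈ tateSub q Γ n := Submodule.subset_span hS

/-- the nonzero coordinates of the determinant -/
theorem detT_prod {T : Type} [DecidableEq T] {N : ℕ} (Γ : T × Fin N → ℂ) (t : T)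
    (a : Fin N → T × Fin N) (ha : detT t a ≠ 0) : ∏ i, Γ (a i) = ∏ i, Γ (t, i) := by
  rw [detT] at ha
  by_cases h1 : ∀ i, (a i).1 = t
  · rw [if_pos h1] at ha
    have hinj : Function.Injective fun i => (a i).2 := by
      intro i l hil
      by_contra hne
      apply ha
      refine Matrix.det_zero_of_row_eq hne ?_
      funext r
      have h2 : (a i).2 = (a l).2 := hil
      simp only [Matrix.of_apply, h2]
    have hbij : Function.Bijective fun i => (a i).2 := Finite.injective_iff_bijective.1 hinj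
    rw [← hbij.prod_comp fun i => Γ (t, i)]
    refine Finset.prod_congr rfl fun i _ => ?_
    have h3 : a i = (t, (a i).2) := Prod.ext (h1 i) rfl
    exact congrArg Γ h3
  · rw [if_neg h1] at ha
    exact absurd rfl ha

theorem detRel' {T : Type} {N : ℕ} {q : ℂ} {Γ : T × Fin N → ℂ} (h : DetRel q Γ) (t : T) :
    ∃ m : ℕ, 0 < m ∧ (∏ i, Γ (t, i)) ^ (2 * m) = q ^ (m * N) := by
  obtain ⟨m, hm, h1⟩ := h t
  refine ⟨m, hm, ?_⟩
  rw [Multiset.map_map, Multiset.card_map, Finset.card_val, Finset.card_univ,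
    Fintype.card_fin] at h1
  exact h1

/-- SYS -/
theorem sys : S_SYS := by
  intro T _ _ N q Γ _ hdet
  refine ⟨?_, fun n S hS => tate_or q Γ S hS⟩
  constructor
  · exact tate_mem ⟨1, 0, one_pos, rfl, fun a _ => by simp⟩
  · intro m n S S' hS hS'
    rcases tate_or q Γ S hS with h | ⟨m1, c1, hm1, hn1, h1⟩
    · have h0 : (fun a => S (fun i => a (Fin.castAdd n i)) * S' (fun i => a (Fin.natAdd m i)) :
          Tens T N (m + n)) = 0 := by
        funext a
        rw [h]
        simp
      rw [h0]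
      exact Submodule.zero_mem _
    rcases tate_or q Γ S' hS' with h | ⟨m2, c2, hm2, hn2, h2⟩
    · have h0 : (fun a => S (fun i => a (Fin.castAdd n i)) * S' (fun i => a (Fin.natAdd m i)) :
          Tens T N (m + n)) = 0 := by
        funext a
        rw [h]
        simp
      rw [h0]
      exact Submodule.zero_mem _
    refine tate_mem ⟨m1 * m2, c1 + c2, Nat.mul_pos hm1 hm2, by omega, fun a ha => ?_⟩
    have e1 := h1 _ (left_ne_zero_of_mul ha)
    have e2 := h2 _ (right_ne_zero_of_mul ha)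
    rw [Fin.prod_univ_add, mul_pow]
    have e3 : (∏ i, Γ (a (Fin.castAdd n i))) ^ (m1 * m2) = q ^ (c1 * m1 * m2) := by
      rw [pow_mul, e1, ← pow_mul]
    have e4 : (∏ i, Γ (a (Fin.natAdd m i))) ^ (m1 * m2) = q ^ (c2 * m2 * m1) := by
      rw [mul_comm m1 m2, pow_mul, e2, ← pow_mul]
    rw [e3, e4, ← pow_add]
    congr 1
    ring
  · intro n S σ hS
    rcases tate_or q Γ S hS with h | ⟨m1, c1, hm1, hn1, h1⟩
    · have h0 : (fun a => S (a ∘ σ) : Tens T N n) = 0 := by
        funext a
        rw [h]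
        rfl
      rw [h0]
      exact Submodule.zero_mem _
    refine tate_mem ⟨m1, c1, hm1, hn1, fun a ha => ?_⟩
    rw [← h1 _ ha]
    congr 1
    exact (Equiv.prod_comp σ fun i => Γ (a i)).symm
  · intro E m hm hE n S i hS
    rcases tate_or q Γ S hS with h | ⟨m1, c1, hm1, hn1, h1⟩
    · have h0 : (fun a => ∑ y, E (a i) y * S (Function.update a i y) : Tens T N n) = 0 := by
        funext a
        rw [h]
        simp
      rw [h0]
      exact Submodule.zero_mem _
    refine tate_mem ⟨m * m1, c1, Nat.mul_pos hm hm1, hn1, fun a ha => ?_⟩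
    obtain ⟨y, -, hy⟩ := Finset.exists_ne_zero_of_sum_ne_zero ha
    have e1 := h1 _ (right_ne_zero_of_mul hy)
    have e2 := hE _ _ (left_ne_zero_of_mul hy)
    obtain ⟨R, hR⟩ : ∃ R : ℂ, R = ∏ l ∈ Finset.univ.erase i, Γ (a l) := ⟨_, rfl⟩
    have e3 : ∏ l, Γ (a l) = Γ (a i) * R := by
      rw [hR, Finset.mul_prod_erase Finset.univ (fun l => Γ (a l)) (Finset.mem_univ i)]
    have e4 : ∏ l, Γ (Function.update a i y l) = Γ y * R := by
      rw [hR, ← Finset.mul_prod_erase Finset.univ (fun l => Γ (Function.update a i y l))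
        (Finset.mem_univ i), Function.update_self]
      congr 1
      refine Finset.prod_congr rfl fun l hl => ?_
      rw [Function.update_of_ne (Finset.ne_of_mem_erase hl)]
    rw [e4] at e1
    rw [e3, mul_pow, pow_mul, e2, ← pow_mul, ← mul_pow, mul_comm m m1, pow_mul, e1, ← pow_mul]
    congr 1
    ring
  · intro S hS
    exact tate_mem hS
  · rintro ⟨r, hr⟩ t
    obtain ⟨m, hm, h1⟩ := detRel' hdet t
    refine tate_mem ⟨2 * m, r, by omega, by omega, fun a ha => ?_⟩
    rw [detT_prod Γ t a ha, h1]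
    congr 1
    rw [hr]
    ring
  · intro t t'
    obtain ⟨m, hm, h1⟩ := detRel' hdet t
    obtain ⟨m', hm', h1'⟩ := detRel' hdet t'
    refine tate_mem ⟨2 * m * m', N, by positivity, by omega, fun a ha => ?_⟩
    rw [Fin.prod_univ_add, mul_pow, detT_prod Γ t _ (left_ne_zero_of_mul ha),
      detT_prod Γ t' _ (right_ne_zero_of_mul ha)]
    have e3 : (∏ i, Γ (t, i)) ^ (2 * m * m') = q ^ (m * N * m') := by
      rw [pow_mul, h1, ← pow_mul]
    have e4 : (∏ i, Γ (t', i)) ^ (2 * m * m') = q ^ (m' * N * m) := by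
      have e5 : 2 * m * m' = 2 * m' * m := by ring
      rw [e5, pow_mul, h1', ← pow_mul]
    rw [e3, e4, ← pow_add]
    congr 1
    ring

end Pool.Agent.H856.WD
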